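import Mathlib

/-! The numbers of the superelliptic Jacobian y^q = f(x), deg f = n. -/

set_option autoImplicit false

namespace Pool.Agent.SJ

/-- The dimension of the constituents: n - 1, or n - 2 if q divides n. -/
def dm (n q : ℕ) : ℕ := if q ∣ n then n - 2 else n - 1

/-- The multiplicity of the class u: [nu/q], or nu/q - 1 if q divides n. -/
def sig (n q : ℕ) (u : ZMod q) : ℕ := if q ∣ n then n * u.val / q - 1 else n * u.val / q

/-- The exceptional signatures (C(m+1,k+1), C(m+1,k)), 0 < k < m. -/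
def Bin (a b : ℕ) : Prop :=
  ∃ m k, 1 ≤ k ∧ k < m ∧ a = (m + 1).choose (k + 1) ∧ b = (m + 1).choose k

/-- The condition for simplicity (p the characteristic, S: symmetric group). -/
def PS (p d a b : ℕ) (S : Prop) : Prop :=
  0 < a ∧ 0 < b ∧ ∀ α β, 2 ≤ α → 2 ≤ β → α * β = d → β ∣ a →
    (p ≠ 3 → (α ∣ β ∧ a * b ≤ 2 * d) ∨ (β ≤ 2 ∧ α ≤ 2)) →
    (p = 3 → (α ∣ β ∧ a * b ≤ 2 * d) ∨ ((2 < β → α ∣ 2) ∧ (2 < α → β ∣ 2))) →
    (p = 3 → (α ∣ β ∧ a * b ≤ 4 * d) ∨ (β ≤ 4 ∧ α ≤ 4)) →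
    (S → (α ∣ β ∧ a * b ≤ d)) → False

end Pool.Agent.SJ
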