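import Pool.Agent.Lib_helper24.GS.G5
import Pool.Agent.Lib_helper48.OU.U27

/-! The ideal generated by one element with scalar square, and its complement. -/

set_option autoImplicit false
set_option linter.unusedSectionVars false

namespace Pool.Agent.SJ

open Module LieModule

attribute [local instance 100] LieRing.ofAssociativeRing

variable {K : Type*} [Field K] [CharZero K] [IsAlgClosed K] {g : Type*} [LieRing g] [LieAlgebra K g]

/-- The space of the traceless parts. -/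
noncomputable def LE (K : Type*) [Field K] (g : Type*) [LieRing g] [LieAlgebra K g]
    (U : Type*) [AddCommGroup U] [Module K U] [LieRingModule g U] [LieModule K g U] :
    Submodule K (Module.End K U) :=
  (Pool.Agent.GS.phi (K := K) (g := g) U).range.toSubmodule

theorem mem_LE (U : Type*) [AddCommGroup U] [Module K U] [LieRingModule g U] [LieModule K g U]
    {x : Module.End K U} : x ∈ LE K g U ↔ ∃ z : g, toEnd K g U z -
      ((finrank K U : K)⁻¹ * LinearMap.trace K U (toEnd K g U z)) • (1 : Module.End K U) = x :=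
  Iff.rfl

theorem split (U : Type*) [AddCommGroup U] [Module K U] [FiniteDimensional K U]
    [LieRingModule g U] [LieModule K g U] [LieModule.IsIrreducible K g U]
    (hnot : ¬ Pool.Agent.OU.PSimple K g U) (T : Module.End K U) (hT : T ∈ LE K g U)
    {c d : K} (hsq : (c • (1 : Module.End K U) + T) * (c • (1 : Module.End K U) + T) =
      d • (1 : Module.End K U)) :
    (∀ x ∈ LE K g U, LinearMap.trace K U x = 0) ∧
    (∀ W : Submodule K U, (∀ x ∈ LE K g U, ∀ w ∈ W, x w ∈ W) → W = ⊥ ∨ W = ⊤) ∧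
    ∃ J C : Submodule K (Module.End K U), J ≤ LE K g U ∧ C ≤ LE K g U ∧ T ∈ J ∧ C ≠ ⊥ ∧
      (∀ z ∈ LE K g U, ∃ x ∈ J, ∃ y ∈ C, z = x + y) ∧
      (∀ x ∈ J, ∀ y ∈ C, x * y = y * x) ∧
      (∀ I : Submodule K (Module.End K U), I ≤ LE K g U →
        (∀ z ∈ LE K g U, ∀ x ∈ I, z * x - x * z ∈ I) → T ∈ I → J ≤ I) ∧
      (∀ z ∈ LE K g U, ∀ x ∈ J, z * x - x * z ∈ J) ∧
      (∀ z ∈ LE K g U, ∀ x ∈ C, z * x - x * z ∈ C) ∧
      (∀ z ∈ LE K g U, (∀ x ∈ J, z * x = x * z) → z ∈ C) ∧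
      (∀ T' ∈ LE K g U, (c • (1 : Module.End K U) + T') * (c • (1 : Module.End K U) + T') =
        d • (1 : Module.End K U) → T' ∈ J ∨ T' ∈ C) ∧
      (∀ φ : Module.End K U →ₗ[K] K, (∀ x ∈ J, ∀ y ∈ J, φ (x * y - y * x) = 0) →
        ∀ x ∈ J, φ x = 0) := by
  obtain ⟨htr, hfa, hirr, hz, hI⟩ := Pool.Agent.GS.facts (K := K) (g := g) U
  have : Nontrivial U := nontrivial_of_isIrreducible K g U
  let L : LieSubalgebra K (Module.End K U) := (Pool.Agent.GS.phi (K := K) (g := g) U).range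
  have hLE : ∀ x, x ∈ LE K g U ↔ x ∈ L := fun x => Iff.rfl
  have hbr : ∀ x y : L, ((⁅x, y⁆ : L) : Module.End K U) =
      (x : Module.End K U) * y - (y : Module.End K U) * x := fun x y => rfl
  have hcomm : ∀ x y : L, ⁅x, y⁆ = 0 → (x : Module.End K U) * y = (y : Module.End K U) * x := by
    intro x y h
    have h1 := congrArg Subtype.val h
    rw [hbr] at h1
    exact sub_eq_zero.mp h1
  have htrad : LieAlgebra.HasTrivialRadical K L :=
    LieAlgebra.hasTrivialRadical_of_isIrreducible_of_isFaithful K L U htr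
  -- the ideal generated by T
  let T₀ : L := ⟨T, hT⟩
  let J₀ : LieIdeal K L := LieSubmodule.lieSpan K L {T₀}
  let C₀ : LieIdeal K L := J₀.killingCompl
  have hJC : IsCompl J₀ C₀ := J₀.isCompl_killingCompl
  have hTJ : T₀ ∈ J₀ := LieSubmodule.subset_lieSpan (Set.mem_singleton T₀)
  have hgen : ∀ I : LieIdeal K L, T₀ ∈ I → J₀ ≤ I := fun I h =>
    LieSubmodule.lieSpan_le.mpr (Set.singleton_subset_iff.mpr h)
  have hc : ∀ x ∈ J₀, ∀ y ∈ C₀, ⁅x, y⁆ = 0 := by
    intro x hx y hy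
    have h1 : ⁅x, y⁆ ∈ J₀ ⊓ C₀ := ⟨by
      have := J₀.lie_mem (x := y) hx
      rw [← lie_skew]
      exact J₀.neg_mem this, C₀.lie_mem hy⟩
    rw [hJC.inf_eq_bot] at h1
    simpa using h1
  have hsup : J₀ ⊔ C₀ = ⊤ := hJC.sup_eq_top
  have hdec : ∀ z : L, ∃ x ∈ J₀, ∃ y ∈ C₀, x + y = z := by
    intro z
    have : z ∈ J₀ ⊔ C₀ := by rw [hsup]; exact LieSubmodule.mem_top z
    rwa [LieSubmodule.mem_sup] at this
  have hsq' : ∀ (l : L), (c • (1 : Module.End K U) + (l : Module.End K U)) *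
      (c • (1 : Module.End K U) + (l : Module.End K U)) = d • (1 : Module.End K U) →
      ∀ u : U, c • (c • u + ⁅l, u⁆) + ⁅l, c • u + ⁅l, u⁆⁆ = d • u := by
    intro l h u
    have h1 := LinearMap.congr_fun h u
    exact h1
  -- C₀ is not zero
  have hC0 : C₀ ≠ ⊥ := by
    intro hC
    have hJt : J₀ = ⊤ := by rwa [hC, sup_bot_eq] at hsup
    apply hnot
    intro I
    rcases hI I with h | h | ⟨J, C, hJ, hC', hJC', hJC'', hc'⟩
    · exact Or.inl h
    · exact Or.inr h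
    exfalso
    rcases Pool.Agent.GS.mem_or (U := U) hJC' hc' hfa hz (l := T₀) (hsq' T₀ hsq) with h | h
    · have h1 : J = ⊤ := by
        rw [eq_top_iff, ← hJt]; exact hgen J h
      apply hC'
      rwa [h1, top_inf_eq] at hJC''
    · have h1 : C = ⊤ := by
        rw [eq_top_iff, ← hJt]; exact hgen C h
      apply hJ
      rwa [h1, inf_top_eq] at hJC''
  -- the centraliser of J₀
  have hcent : ∀ z : L, (∀ x ∈ J₀, ⁅z, x⁆ = 0) → z ∈ C₀ := by
    intro z h
    obtain ⟨x, hx, y, hy, rfl⟩ := hdec z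
    have hx0 : x = 0 := by
      refine hz x fun w => ?_
      obtain ⟨x', hx', y', hy', rfl⟩ := hdec w
      rw [lie_add, hc x hx y' hy', add_zero]
      have h1 := h x' hx'
      rw [add_lie] at h1
      have h2 : ⁅y, x'⁆ = 0 := by rw [← lie_skew, hc x' hx' y hy, neg_zero]
      rwa [h2, add_zero] at h1
    rw [hx0, zero_add]; exact hy
  -- J₀ is perfect
  have hperf : J₀ ≤ ⁅J₀, J₀⁆ := by
    intro x hx
    let J₁ : LieIdeal K L := ⁅J₀, J₀⁆
    let C₁ : LieIdeal K L := J₁.killingCompl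
    have hJC₁ : IsCompl J₁ C₁ := J₁.isCompl_killingCompl
    obtain ⟨j, hj, y, hy, rfl⟩ : ∃ j ∈ J₁, ∃ y ∈ C₁, j + y = x := by
      have : x ∈ J₁ ⊔ C₁ := by rw [hJC₁.sup_eq_top]; exact LieSubmodule.mem_top x
      rwa [LieSubmodule.mem_sup] at this
    have hjJ : j ∈ J₀ := LieSubmodule.lie_le_right J₀ J₀ hj
    have hyJ : y ∈ J₀ := by
      have := J₀.sub_mem hx hjJ
      rwa [add_sub_cancel_left] at this
    have hy0 : y = 0 := by
      refine hz y fun w => ?_
      obtain ⟨x', hx', y', hy', rfl⟩ := hdec w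
      rw [lie_add, hc y hyJ y' hy', add_zero]
      have h1 : ⁅y, x'⁆ ∈ J₁ ⊓ C₁ := ⟨LieSubmodule.lie_mem_lie hyJ hx', by
        have := C₁.lie_mem (x := x') hy
        rw [← lie_skew]
        exact C₁.neg_mem this⟩
      rw [hJC₁.inf_eq_bot] at h1
      simpa using h1
    rw [hy0, add_zero]
    exact hj
  -- the submodules
  let em : LieIdeal K L → Submodule K (Module.End K U) := fun I =>
    I.toSubmodule.map L.toSubmodule.subtype
  have hem : ∀ (I : LieIdeal K L) (x : Module.End K U), x ∈ em I ↔ ∃ h : x ∈ L, (⟨x, h⟩ : L) ∈ I := by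
    intro I x
    constructor
    · rintro ⟨y, hy, rfl⟩
      exact ⟨y.2, hy⟩
    · rintro ⟨h1, h2⟩
      exact ⟨⟨x, h1⟩, h2, rfl⟩
  have hemL : ∀ I : LieIdeal K L, em I ≤ LE K g U := fun I x hx => ((hem I x).mp hx).1
  have hemi : ∀ I : LieIdeal K L, ∀ z ∈ LE K g U, ∀ x ∈ em I, z * x - x * z ∈ em I := by
    intro I z hz' x hx
    obtain ⟨h1, h2⟩ := (hem I x).mp hx
    refine ⟨⁅(⟨z, hz'⟩ : L), (⟨x, h1⟩ : L)⁆, I.lie_mem h2, rfl⟩
  refine ⟨fun x hx => htr ⟨x, hx⟩, ?_, em J₀, em C₀, hemL J₀, hemL C₀, ⟨T₀, hTJ, rfl⟩, ?_, ?_, ?_, ?_,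
    hemi J₀, hemi C₀, ?_, ?_, ?_⟩
  · intro W hW
    let W' : LieSubmodule K L U := { W with lie_mem := fun {x v} hv => hW x.1 x.2 v hv }
    have hWW : (W' : Submodule K U) = W := rfl
    rcases eq_bot_or_eq_top W' with h | h
    · left; rw [← hWW, h]; simp
    · right; rw [← hWW, h]; simp
  · intro h
    apply hC0
    rw [LieSubmodule.eq_bot_iff]
    intro y hy
    have h1 : (y : Module.End K U) ∈ em C₀ := ⟨y, hy, rfl⟩
    rw [h, Submodule.mem_bot] at h1
    exact Subtype.ext h1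
  · intro z hz'
    obtain ⟨x, hx, y, hy, hxy⟩ := hdec ⟨z, hz'⟩
    exact ⟨x, ⟨x, hx, rfl⟩, y, ⟨y, hy, rfl⟩, (congrArg Subtype.val hxy).symm⟩
  · rintro _ ⟨x, hx, rfl⟩ _ ⟨y, hy, rfl⟩
    exact hcomm x y (hc x hx y hy)
  · intro I hIL hI' hTI
    let I' : LieIdeal K L :=
      { carrier := {x | (x : Module.End K U) ∈ I}
        add_mem' := fun {a b} ha hb => I.add_mem ha hb
        zero_mem' := I.zero_mem
        smul_mem' := fun c x hx => I.smul_mem c hx
        lie_mem := fun {x y} hy => hI' x.1 x.2 y.1 hy }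
    have h1 := hgen I' hTI
    rintro _ ⟨x, hx, rfl⟩
    exact h1 hx
  · intro z hz' h
    refine ⟨⟨z, hz'⟩, hcent _ fun x hx => ?_, rfl⟩
    apply Subtype.ext
    rw [hbr, h x ⟨x, hx, rfl⟩, sub_self]
    rfl
  · intro T' hT' hsqT
    rcases Pool.Agent.GS.mem_or (U := U) hsup hc hfa hz (l := ⟨T', hT'⟩) (hsq' ⟨T', hT'⟩ hsqT) with h | h
    · exact Or.inl ⟨_, h, rfl⟩
    · exact Or.inr ⟨_, h, rfl⟩
  · intro φ hφ
    have key : ∀ x : L, x ∈ (⁅J₀, J₀⁆ : LieIdeal K L).toSubmodule → φ (x : Module.End K U) = 0 := by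
      intro x hx'
      rw [LieSubmodule.lieIdeal_oper_eq_linear_span'] at hx'
      induction hx' using Submodule.span_induction with
      | mem x hx =>
        obtain ⟨a, ha, b, hb, rfl⟩ := hx
        exact hφ a ⟨a, ha, rfl⟩ b ⟨b, hb, rfl⟩
      | zero => exact map_zero φ
      | add x y _ _ h1 h2 =>
        have : φ ((x + y : L) : Module.End K U) = φ (x : Module.End K U) +
          φ (y : Module.End K U) := map_add φ _ _
        rw [this, h1, h2, add_zero]
      | smul a x _ h1 =>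
        have : φ ((a • x : L) : Module.End K U) = a • φ (x : Module.End K U) := map_smul φ _ _
        rw [this, h1, smul_zero]
    rintro _ ⟨x, hx, rfl⟩
    exact key x (hperf hx)

end Pool.Agent.SJ
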