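import Pool.Agent.Lib_helper54.SJ.Comm
import Pool.Agent.Lib_helper54.SJ.Split

/-! The dichotomy for an element of the normaliser when the image is not simple. -/

set_option autoImplicit false
set_option linter.unusedSectionVars false

namespace Pool.Agent.SJ

open Module LieModule

theorem simple_pos {K V B : Type*} [Field K] [AddCommGroup V] [Module K V]
    [FiniteDimensional K V] [Ring B] [Algebra K B] [Module B V] [IsScalarTower K B V]
    (W : Submodule B V) [IsSimpleModule B W] : 0 < finrank K W := by
  have hnW : Nontrivial W := IsSimpleModule.nontrivial B W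
  have hfW : Module.Finite K W :=
    Module.Finite.of_injective (W.subtype.restrictScalars K) W.subtype_injective
  exact Module.finrank_pos

section adj

variable {K V : Type*} [Field K] [AddCommGroup V] [Module K V]

theorem adj_stable {S : Set (Module.End K V)} {W : Submodule K V}
    (h : ∀ x ∈ S, ∀ w ∈ W, x w ∈ W) : ∀ a ∈ Algebra.adjoin K S, ∀ w ∈ W, a w ∈ W := by
  intro a ha
  induction ha using Algebra.adjoin_induction with
  | mem x hx => exact h x hx
  | algebraMap r => intro w hw; exact W.smul_mem r hw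
  | add x y _ _ h1 h2 => intro w hw; exact W.add_mem (h1 w hw) (h2 w hw)
  | mul x y _ _ h1 h2 => intro w hw; exact h1 _ (h2 w hw)

theorem adj_comm {S T : Set (Module.End K V)} (h : ∀ x ∈ S, ∀ y ∈ T, x * y = y * x) :
    ∀ a ∈ Algebra.adjoin K S, ∀ b ∈ Algebra.adjoin K T, a * b = b * a := by
  have h1 : ∀ a ∈ Algebra.adjoin K S, ∀ y ∈ T, a * y = y * a := by
    intro a ha y hy
    induction ha using Algebra.adjoin_induction with
    | mem x hx => exact h x hx y hy
    | algebraMap r => exact Algebra.commutes r y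
    | add x z _ _ h1 h2 => rw [add_mul, mul_add, h1, h2]
    | mul x z _ _ h1 h2 => rw [mul_assoc, h2, ← mul_assoc, h1, mul_assoc]
  intro a ha b hb
  induction hb using Algebra.adjoin_induction with
  | mem y hy => exact h1 a ha y hy
  | algebraMap r => exact (Algebra.commutes r a).symm
  | add x z _ _ h1 h2 => rw [add_mul, mul_add, h1, h2]
  | mul x z _ _ h1 h2 => rw [← mul_assoc, h1, mul_assoc, h2, mul_assoc]

theorem conj_mul' (s : V ≃ₗ[K] V) (x y : Module.End K V) :
    s.conj (x * y) = s.conj x * s.conj y := by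
  ext v
  simp [LinearEquiv.conj_apply]

theorem conj_algebraMap (s : V ≃ₗ[K] V) (r : K) :
    s.conj (algebraMap K (Module.End K V) r) = algebraMap K (Module.End K V) r := by
  ext v
  simp [LinearEquiv.conj_apply, Module.algebraMap_end_apply]

theorem adj_conj (s : V ≃ₗ[K] V) {S : Set (Module.End K V)} (h : ∀ y ∈ S, s.conj y ∈ S) :
    ∀ b ∈ Algebra.adjoin K S, s.conj b ∈ Algebra.adjoin K S := by
  intro b hb
  induction hb using Algebra.adjoin_induction with
  | mem y hy => exact Algebra.subset_adjoin (h y hy)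
  | algebraMap r => rw [conj_algebraMap]; exact Subalgebra.algebraMap_mem _ r
  | add x z _ _ h1 h2 => rw [map_add]; exact Subalgebra.add_mem _ h1 h2
  | mul x z _ _ h1 h2 => rw [conj_mul']; exact Subalgebra.mul_mem _ h1 h2

theorem conj_apply' (s : V ≃ₗ[K] V) (x : Module.End K V) (v : V) : s.conj x (s v) = s (x v) := by
  simp [LinearEquiv.conj_apply]

theorem conj_symm_apply' (s : V ≃ₗ[K] V) (x : Module.End K V) (v : V) :
    s (s.symm.conj x v) = x (s v) := by
  simp [LinearEquiv.conj_apply]

theorem conj_symm_mem [FiniteDimensional K V] (s : V ≃ₗ[K] V) (M : Submodule K (Module.End K V))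
    (h : ∀ x ∈ M, s.conj x ∈ M) : ∀ x ∈ M, s.symm.conj x ∈ M := by
  intro x hx
  have h1 : M.map (s.conj : Module.End K V →ₗ[K] Module.End K V) ≤ M := by
    rintro _ ⟨y, hy, rfl⟩
    exact h y hy
  have h2 : M.map (s.conj : Module.End K V →ₗ[K] Module.End K V) = M :=
    Submodule.eq_of_le_of_finrank_eq h1 (LinearEquiv.finrank_map_eq s.conj M)
  rw [← h2] at hx
  obtain ⟨y, hy, rfl⟩ := hx
  have : s.symm.conj (s.conj y) = y := by
    ext v
    simp [LinearEquiv.conj_apply]
  show s.symm.conj (s.conj y) ∈ M
  rw [this]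
  exact hy

theorem rank_comm_le [FiniteDimensional K V] (s : V ≃ₗ[K] V) (x : Module.End K V) :
    finrank K (LinearMap.range (x - s.conj x)) ≤
      2 * finrank K (LinearMap.range ((s : Module.End K V) - 1)) := by
  have h1 : (x - s.conj x) * (s : Module.End K V) =
      x * ((s : Module.End K V) - 1) - ((s : Module.End K V) - 1) * x := by
    ext v
    simp [LinearEquiv.conj_apply]
  have h2 : LinearMap.range ((x - s.conj x) * (s : Module.End K V)) =
      LinearMap.range (x - s.conj x) := by
    rw [Module.End.mul_eq_comp, LinearMap.range_comp_of_range_eq_top]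
    exact LinearEquiv.range s
  rw [← h2, h1]
  have h3 : LinearMap.range (x * ((s : Module.End K V) - 1) - ((s : Module.End K V) - 1) * x) ≤
      (LinearMap.range ((s : Module.End K V) - 1)).map x ⊔
        LinearMap.range ((s : Module.End K V) - 1) := by
    rintro _ ⟨v, rfl⟩
    rw [LinearMap.sub_apply]
    refine Submodule.sub_mem _ (Submodule.mem_sup_left ?_) (Submodule.mem_sup_right ?_)
    · exact ⟨((s : Module.End K V) - 1) v, ⟨v, rfl⟩, rfl⟩
    · exact ⟨x v, rfl⟩
  calc finrank K _ ≤ finrank K ((LinearMap.range ((s : Module.End K V) - 1)).map x ⊔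
        LinearMap.range ((s : Module.End K V) - 1) : Submodule K V) := Submodule.finrank_mono h3
    _ ≤ finrank K ((LinearMap.range ((s : Module.End K V) - 1)).map x) +
        finrank K (LinearMap.range ((s : Module.End K V) - 1)) :=
          Submodule.finrank_add_le_finrank_add_finrank _ _
    _ ≤ finrank K (LinearMap.range ((s : Module.End K V) - 1)) +
        finrank K (LinearMap.range ((s : Module.End K V) - 1)) :=
          Nat.add_le_add_right (Submodule.finrank_map_le _ _) _
    _ = _ := by ring

end adj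

section main

attribute [local instance 100] LieRing.ofAssociativeRing

variable {K : Type*} [Field K] [CharZero K] [IsAlgClosed K] {g : Type*} [LieRing g] [LieAlgebra K g]
  {U : Type*} [AddCommGroup U] [Module K U] [FiniteDimensional K U]
  [LieRingModule g U] [LieModule K g U]

/-- s normalises the traceless parts. -/
theorem conj_LE [Nontrivial U] (s : U ≃ₗ[K] U)
    (hs : ∀ x : g, ∃ y : g, ∀ v : U, s ⁅x, v⁆ = ⁅y, s v⁆) :
    ∀ x ∈ LE K g U, s.conj x ∈ LE K g U := by
  intro x hx
  obtain ⟨z, rfl⟩ := (mem_LE U).mp hx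
  obtain ⟨y, hy⟩ := hs z
  have h1 : s.conj (toEnd K g U z) = toEnd K g U y := by
    ext v
    obtain ⟨w, rfl⟩ := s.surjective v
    rw [conj_apply']
    exact hy w
  have h2 : LinearMap.trace K U (toEnd K g U y) = LinearMap.trace K U (toEnd K g U z) := by
    rw [← h1, LinearMap.trace_conj']
  refine (mem_LE U).mpr ⟨y, ?_⟩
  have h3 : s.conj (1 : Module.End K U) = 1 := by
    ext v
    simp [LinearEquiv.conj_apply]
  rw [map_sub, map_smul, h1, h3, h2]

omit [IsAlgClosed K] in
theorem trace_bound (s : U ≃ₗ[K] U) (κ : K) (T : Module.End K U)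
    (hsq : (κ • (1 : Module.End K U) + T) * (κ • (1 : Module.End K U) + T) =
      (1/4 : K) • (1 : Module.End K U)) (c1 : T * s.conj T = s.conj T * T)
    (htT : LinearMap.trace K U T = 0) (hTT : LinearMap.trace K U (T * s.conj T) = 0) {a b : ℕ}
    (hκ' : κ * (2 * finrank K U) = (a : K) - b) (hab : a + b = finrank K U) :
    a * b ≤ finrank K (LinearMap.range ((s : Module.End K U) - 1)) * finrank K U := by
  have hs1 : s.conj (1 : Module.End K U) = 1 := by
    ext v
    simp [LinearEquiv.conj_apply]
  obtain ⟨T', hT'⟩ : ∃ T', T' = s.conj T := ⟨_, rfl⟩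
  obtain ⟨H, e1⟩ : ∃ H, H = κ • (1 : Module.End K U) + T := ⟨_, rfl⟩
  obtain ⟨H', e2⟩ : ∃ H', H' = κ • (1 : Module.End K U) + T' := ⟨_, rfl⟩
  have hH' : s.conj H = H' := by rw [e1, map_add, map_smul, hs1, e2, hT']
  have htT' : LinearMap.trace K U T' = 0 := by rw [hT', LinearMap.trace_conj', htT]
  rw [← hT'] at c1 hTT
  have q1 : H * H = (1/4 : K) • (1 : Module.End K U) := by rw [e1, hsq]
  have q2 : H' * H' = (1/4 : K) • (1 : Module.End K U) := by
    have h1 := congrArg s.conj q1
    rw [conj_mul', hH', map_smul, hs1] at h1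
    exact h1
  have c2 : H * H' = H' * H := by
    rw [e1, e2]
    simp only [add_mul, mul_add, smul_mul_assoc, mul_smul_comm, one_mul, mul_one, smul_add, c1]
    abel
  -- the square of the difference
  have d1 : (H - H') * (H - H') = (1/2 : K) • (1 : Module.End K U) - (2 : K) • (H * H') := by
    rw [sub_mul, mul_sub, mul_sub, q1, q2, ← c2]
    module
  have q3 : (H * H') * (H * H') = (1/16 : K) • (1 : Module.End K U) := by
    have h1 : (H * H') * (H * H') = H * (H' * H) * H' := by simp only [mul_assoc]
    rw [h1, ← c2]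
    have h2 : H * (H * H') * H' = (H * H) * (H' * H') := by simp only [mul_assoc]
    rw [h2, q1, q2, smul_mul_smul_comm, mul_one]
    norm_num
  obtain ⟨D, hD⟩ : ∃ D, D = (H - H') * (H - H') := ⟨_, rfl⟩
  have hDD : D * D = D := by
    rw [hD, d1]
    obtain ⟨E, hE⟩ : ∃ E, E = H * H' := ⟨_, rfl⟩
    rw [← hE] at q3 ⊢
    rw [sub_mul, mul_sub, mul_sub, smul_mul_smul_comm, smul_mul_smul_comm,
      smul_mul_smul_comm, smul_mul_smul_comm, q3]
    simp only [one_mul, mul_one, smul_smul]
    module
  have htrD : (finrank K (LinearMap.range D) : K) = LinearMap.trace K U D := by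
    have hP : LinearMap.IsProj (LinearMap.range D) D := by
      refine ⟨fun v => ⟨v, rfl⟩, ?_⟩
      rintro _ ⟨v, rfl⟩
      have := LinearMap.congr_fun hDD v
      exact this
    exact hP.trace.symm
  have hHH : LinearMap.trace K U (H * H') = κ * κ * finrank K U := by
    rw [e1, e2, add_mul, mul_add, mul_add, smul_mul_smul_comm, smul_mul_assoc, mul_smul_comm,
      one_mul, mul_one, one_mul, map_add, map_add, map_add, map_smul, map_smul, map_smul,
      htT, htT', hTT, LinearMap.trace_one, smul_eq_mul]
    simp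
  have hfin : (finrank K (LinearMap.range D) : K) * finrank K U = 2 * (a * b) := by
    rw [htrD, hD, d1, map_sub, map_smul, map_smul, hHH, LinearMap.trace_one, smul_eq_mul,
      smul_eq_mul]
    have hab' : ((a : K) + b) = finrank K U := by exact_mod_cast hab
    have h1 : (κ * (2 * finrank K U)) * (κ * (2 * finrank K U)) = ((a : K) - b) * (a - b) := by
      rw [hκ']
    rw [← hab'] at h1 ⊢
    linear_combination (-1/2 : K) * h1
  have hfin' : finrank K (LinearMap.range D) * finrank K U = 2 * (a * b) := by
    exact_mod_cast hfin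
  have hDr : finrank K (LinearMap.range D) ≤
      2 * finrank K (LinearMap.range ((s : Module.End K U) - 1)) := by
    have h1 : LinearMap.range D ≤ LinearMap.range (H - H') := by
      rintro _ ⟨v, rfl⟩
      rw [hD]
      exact ⟨(H - H') v, rfl⟩
    have h2 := Submodule.finrank_mono h1
    have h3 := rank_comm_le s H
    rw [hH'] at h3
    exact h2.trans h3
  have h4 : finrank K (LinearMap.range D) * finrank K U ≤
      2 * finrank K (LinearMap.range ((s : Module.End K U) - 1)) * finrank K U :=
    Nat.mul_le_mul_right _ hDr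
  rw [hfin', mul_assoc] at h4
  exact Nat.le_of_mul_le_mul_left h4 (by norm_num)

theorem dichotomy [LieModule.IsIrreducible K g U] (hnot : ¬ Pool.Agent.OU.PSimple K g U) (h : g)
    (hh : ∀ v : U, ⁅h, ⁅h, v⁆⁆ = (1/4 : K) • v)
    (hns : ¬ ∃ c : K, ∀ v : U, ⁅h, v⁆ = c • v) {a b : ℕ}
    (ha : finrank K (Module.End.eigenspace (LieModule.toEnd K g U h) (1/2)) = a)
    (hb : finrank K (Module.End.eigenspace (LieModule.toEnd K g U h) (-(1/2))) = b) :
    ∃ α β : ℕ, 2 ≤ α ∧ 2 ≤ β ∧ α * β = finrank K U ∧ β ∣ a ∧
      ∀ (s : U ≃ₗ[K] U), (∀ x : g, ∃ y : g, ∀ v : U, s ⁅x, v⁆ = ⁅y, s v⁆) →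
        (α ∣ β ∧ a * b ≤ finrank K (LinearMap.range ((s : Module.End K U) - 1)) * finrank K U) ∨
        ((finrank K (LinearMap.range ((s : Module.End K U) - 1)) < β →
            ∀ ζ : K, α ∣ finrank K (Module.End.eigenspace (s : Module.End K U) ζ)) ∧
          (finrank K (LinearMap.range ((s : Module.End K U) - 1)) < α →
            ∀ ζ : K, β ∣ finrank K (Module.End.eigenspace (s : Module.End K U) ζ))) := by
  have hnt : Nontrivial U := nontrivial_of_isIrreducible K g U
  have hd0 : (finrank K U : K) ≠ 0 := Nat.cast_ne_zero.mpr Module.finrank_pos.ne'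
  obtain ⟨hab, htr2⟩ := Pool.Agent.OU.sign_eq (K := K) (V := U) h hh
  rw [ha, hb] at hab htr2
  -- the traceless part
  obtain ⟨κ, hκ⟩ : ∃ κ, κ = (finrank K U : K)⁻¹ * LinearMap.trace K U (toEnd K g U h) := ⟨_, rfl⟩
  obtain ⟨T, hTdef⟩ : ∃ T, T = toEnd K g U h - κ • (1 : Module.End K U) := ⟨_, rfl⟩
  have hTL : T ∈ LE K g U := (mem_LE U).mpr ⟨h, by rw [hTdef, hκ]⟩
  have hHT : toEnd K g U h = κ • (1 : Module.End K U) + T := by rw [hTdef]; abel
  have hH2 : toEnd K g U h * toEnd K g U h = (1/4 : K) • (1 : Module.End K U) :=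
    LinearMap.ext fun v => hh v
  have hsq : (κ • (1 : Module.End K U) + T) * (κ • (1 : Module.End K U) + T) =
      (1/4 : K) • (1 : Module.End K U) := by rw [← hHT, hH2]
  obtain ⟨htr0, hirr, J, C, hJL, hCL, hTJ, hC0, hdec, hcm, hgen, hJi, hCi, hcent, hor, hperf⟩ :=
    split U hnot T hTL hsq
  -- the algebras
  let A : Subalgebra K (Module.End K U) := Algebra.adjoin K (J : Set (Module.End K U))
  let B : Subalgebra K (Module.End K U) := Algebra.adjoin K (C : Set (Module.End K U))
  have hAB : ∀ x ∈ A, ∀ y ∈ B, x * y = y * x := adj_comm hcm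
  have hSC : SMulCommClass B A U := ⟨fun y x v => by
    have := LinearMap.congr_fun (hAB x.1 x.2 y.1 y.2) v
    exact this.symm⟩
  have hirr' : ∀ W : Submodule K U, (∀ x : A, ∀ w ∈ W, x • w ∈ W) →
      (∀ y : B, ∀ w ∈ W, y • w ∈ W) → W = ⊥ ∨ W = ⊤ := by
    intro W h1 h2
    refine hirr W fun z hz w hw => ?_
    obtain ⟨x, hx, y, hy, rfl⟩ := hdec z hz
    exact W.add_mem (h1 ⟨x, Algebra.subset_adjoin hx⟩ w hw) (h2 ⟨y, Algebra.subset_adjoin hy⟩ w hw)
  obtain ⟨α, β, hα0, hβ0, hαβ, hAd, hBd, hα1, hβ1, hssA, hssB, W₀, hW₀⟩ :=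
    dims (K := K) (V := U) (A := A) (B := B) hirr'
  -- stable subspaces
  have hAst : ∀ W : Submodule K U, (∀ x ∈ J, ∀ w ∈ W, x w ∈ W) → α ∣ finrank K W := by
    intro W hW
    have h1 := adj_stable (K := K) (S := (J : Set (Module.End K U))) hW
    exact hAd { W with smul_mem' := fun x w hw => h1 x.1 x.2 w hw }
  have hBst : ∀ W : Submodule K U, (∀ x ∈ C, ∀ w ∈ W, x w ∈ W) → β ∣ finrank K W := by
    intro W hW
    have h1 := adj_stable (K := K) (S := (C : Set (Module.End K U))) hW
    exact hBd { W with smul_mem' := fun x w hw => h1 x.1 x.2 w hw }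
  have hsc0 : ∀ x ∈ LE K g U, (∃ c : K, ∀ v : U, x v = c • v) → x = 0 := by
    rintro x hx ⟨c, hc⟩
    have h1 : x = c • (1 : Module.End K U) := LinearMap.ext fun v => hc v
    have h2 := htr0 x hx
    rw [h1, map_smul, LinearMap.trace_one, smul_eq_mul] at h2
    rw [h1, (mul_eq_zero.mp h2).resolve_right hd0, zero_smul]
  have hT0 : T ≠ 0 := by
    intro h0
    apply hns
    refine ⟨κ, fun v => ?_⟩
    have := LinearMap.congr_fun hHT v
    rw [h0, add_zero] at this
    exact this
  have hα2 : 2 ≤ α := by
    by_contra hlt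
    have h1 : α = 1 := by omega
    apply hT0
    obtain ⟨c, hc⟩ := hα1 h1 ⟨T, Algebra.subset_adjoin hTJ⟩
    exact hsc0 T hTL ⟨c, hc⟩
  have hβ2 : 2 ≤ β := by
    by_contra hlt
    have h1 : β = 1 := by omega
    apply hC0
    rw [eq_bot_iff]
    intro y hy
    obtain ⟨c, hc⟩ := hβ1 h1 ⟨y, Algebra.subset_adjoin hy⟩
    exact hsc0 y (hCL hy) ⟨c, hc⟩
  refine ⟨α, β, hα2, hβ2, hαβ, ?_, ?_⟩
  · -- β divides a
    rw [← ha]
    refine hBst _ fun y hy w hw => ?_
    rw [Module.End.mem_eigenspace_iff, hHT] at hw ⊢
    have h1 := LinearMap.congr_fun (hcm T hTJ y hy) w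
    rw [Module.End.mul_apply, Module.End.mul_apply] at h1
    rw [LinearMap.add_apply, LinearMap.smul_apply, Module.End.one_apply] at hw ⊢
    rw [h1, ← map_smul, ← map_add, hw, map_smul]
  · intro s hs
    obtain ⟨ρ, hρ⟩ : ∃ ρ, ρ = finrank K (LinearMap.range ((s : Module.End K U) - 1)) := ⟨_, rfl⟩
    rw [← hρ]
    have hsL := conj_LE s hs
    have hsL' := conj_symm_mem s _ hsL
    have hs1 : s.conj (1 : Module.End K U) = 1 := by
      ext v
      simp [LinearEquiv.conj_apply]
    -- ideals pulled back by s
    have hpull : ∀ I : Submodule K (Module.End K U), (∀ z ∈ LE K g U, ∀ x ∈ I, z * x - x * z ∈ I) →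
        s.conj T ∈ I → ∀ x ∈ J, s.conj x ∈ I := by
      intro I hI hTI
      have h1 := hgen ((I.comap (s.conj : Module.End K U →ₗ[K] Module.End K U)) ⊓ LE K g U)
        inf_le_right ?_ ⟨hTI, hTL⟩
      · intro x hx
        exact (h1 hx).1
      · rintro z hz x ⟨hx1, hx2⟩
        refine ⟨?_, ?_⟩
        · show s.conj (z * x - x * z) ∈ I
          rw [map_sub, conj_mul', conj_mul']
          exact hI _ (hsL z hz) _ hx1
        · obtain ⟨z', rfl⟩ := (mem_LE U).mp hz
          obtain ⟨x', rfl⟩ := (mem_LE U).mp hx2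
          have h5 := (Pool.Agent.GS.phi (K := K) (g := g) U).range.lie_mem
            (x := Pool.Agent.GS.phi (K := K) (g := g) U z')
            (y := Pool.Agent.GS.phi (K := K) (g := g) U x') ⟨z', rfl⟩ ⟨x', rfl⟩
          exact h5
    have hT'sq : (κ • (1 : Module.End K U) + s.conj T) * (κ • (1 : Module.End K U) + s.conj T) =
        (1/4 : K) • (1 : Module.End K U) := by
      have h1 := congrArg s.conj hsq
      rw [conj_mul', map_add, map_smul, map_smul, hs1] at h1
      exact h1
    rcases hor (s.conj T) (hsL T hTL) hT'sq with hT' | hT'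
    · -- s normalises J and C
      right
      have hsJ := hpull J hJi hT'
      have hsJ' := conj_symm_mem s _ hsJ
      have hsC' : ∀ y ∈ C, s.symm.conj y ∈ C := by
        intro y hy
        refine hcent _ (hsL' y (hCL hy)) fun x hx => ?_
        have h1 := hcm _ (hsJ x hx) y hy
        have h2 := congrArg s.symm.conj h1
        rw [conj_mul', conj_mul'] at h2
        have h3 : s.symm.conj (s.conj x) = x := by
          ext v
          simp [LinearEquiv.conj_apply]
        rw [h3] at h2
        exact h2.symm
      constructor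
      · intro hlt ζ
        refine hAst _ fun x hx w hw => ?_
        let xB : U →ₗ[B] U :=
          { toFun := x
            map_add' := x.map_add
            map_smul' := fun y v => by
              have := LinearMap.congr_fun (hAB x (Algebra.subset_adjoin hx) y.1 y.2) v
              exact this }
        have h1 : ∀ v, s (xB v) = xB (s v) := by
          refine comm_of_rank hssB s ?_ ?_ xB
          · rintro ⟨y, hy⟩
            refine ⟨⟨s.symm.conj y, adj_conj s.symm hsC' y hy⟩, fun v => ?_⟩
            exact (conj_symm_apply' s y v).symm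
          · intro W hW
            have h2 : 0 < finrank K W := simple_pos W
            have h3 := Nat.le_of_dvd h2 (hBd W)
            rw [← hρ]
            omega
        rw [Module.End.mem_eigenspace_iff] at hw ⊢
        have h2 : s (x w) = x (s w) := h1 w
        have h3 : s w = ζ • w := hw
        show s (x w) = ζ • x w
        rw [h2, h3, map_smul]
      · intro hlt ζ
        refine hBst _ fun y hy w hw => ?_
        let yA : U →ₗ[A] U :=
          { toFun := y
            map_add' := y.map_add
            map_smul' := fun x v => by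
              have := LinearMap.congr_fun (hAB x.1 x.2 y (Algebra.subset_adjoin hy)) v
              exact this.symm }
        have h1 : ∀ v, s (yA v) = yA (s v) := by
          refine comm_of_rank hssA s ?_ ?_ yA
          · rintro ⟨x, hx⟩
            refine ⟨⟨s.symm.conj x, adj_conj s.symm hsJ' x hx⟩, fun v => ?_⟩
            exact (conj_symm_apply' s x v).symm
          · intro W hW
            have h2 : 0 < finrank K W := simple_pos W
            have h3 := Nat.le_of_dvd h2 (hAd W)
            rw [← hρ]
            omega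
        rw [Module.End.mem_eigenspace_iff] at hw ⊢
        have h2 : s (y w) = y (s w) := h1 w
        have h3 : s w = ζ • w := hw
        show s (y w) = ζ • y w
        rw [h2, h3, map_smul]
    · -- s moves J into C
      left
      have hsJ := hpull C hCi hT'
      constructor
      · have h1 : finrank K ((W₀.restrictScalars K).map (s.symm : U →ₗ[K] U)) = β := by
          rw [← hW₀]
          exact LinearEquiv.finrank_map_eq s.symm (W₀.restrictScalars K)
        rw [← h1]
        refine hAst _ ?_
        rintro x hx _ ⟨w, hw, rfl⟩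
        refine ⟨s.conj x w, W₀.smul_mem ⟨s.conj x, Algebra.subset_adjoin (hsJ x hx)⟩ hw, ?_⟩
        simp [LinearEquiv.conj_apply]
      · -- the trace computation
        have c1 : T * s.conj T = s.conj T * T := hcm T hTJ _ hT'
        have hTT : LinearMap.trace K U (T * s.conj T) = 0 := by
          have h1 := hperf ((LinearMap.trace K U).comp (LinearMap.mulRight K (s.conj T))) ?_ T hTJ
          · simpa using h1
          · intro x hx y hy
            have k1 : y * s.conj T = s.conj T * y := hcm y hy _ hT'
            show LinearMap.trace K U ((x * y - y * x) * s.conj T) = 0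
            rw [sub_mul, map_sub, mul_assoc, k1, ← mul_assoc, LinearMap.trace_mul_comm K (x * s.conj T) y,
              ← mul_assoc, sub_self]
        have hκ' : κ * (2 * finrank K U) = (a : K) - b := by
          rw [← htr2, hκ]
          field_simp
        rw [hρ]
        exact trace_bound s κ T hsq c1 (htr0 T hTL) hTT hκ' hab

end main

end Pool.Agent.SJ
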