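import Pool.Agent.Lib_helper54.SJ.Mult
import Pool.Agent.Lib_helper54.SJ.Dich
import Pool.Agent.Lib_helper54.SJ.Defs

/-! One constituent: the image contains sl(U). -/

set_option autoImplicit false
set_option linter.unusedSectionVars false

namespace Pool.Agent.SJ

open Module LieModule Polynomial IsLocalRing

attribute [local instance 100] LieRing.ofAssociativeRing

variable {K : Type*} [Field K] [CharZero K] {g : Type*} [LieRing g] [LieAlgebra K g]
  {U : Type*} [AddCommGroup U] [Module K U] [FiniteDimensional K U]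
  [LieRingModule g U] [LieModule K g U]

/-- A nonzero element with square zero. -/
theorem exists_sq [LieModule.IsIrreducible K g U] (h : g)
    (hh : ∀ v : U, ⁅h, ⁅h, v⁆⁆ = (1/4 : K) • v) (hns : ¬ ∃ c : K, ∀ v : U, ⁅h, v⁆ = c • v) :
    ∃ x : g, (∀ v : U, ⁅x, ⁅x, v⁆⁆ = 0) ∧ ∃ v : U, ⁅x, v⁆ ≠ 0 := by
  have hX : ∀ (y : g) (v : U), ⁅⁅h, ⁅h, y⁆⁆ + ⁅h, y⁆, v⁆ =
      (1/2 : K) • ⁅y, v⁆ - (2 : K) • ⁅h, ⁅y, ⁅h, v⁆⁆⁆ + ⁅h, ⁅y, v⁆⁆ - ⁅y, ⁅h, v⁆⁆ := by
    intro y v
    rw [add_lie, lie_lie, lie_lie, lie_lie, lie_sub, hh, hh, lie_smul]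
    have : (2 : K) • ⁅h, ⁅y, ⁅h, v⁆⁆⁆ = ⁅h, ⁅y, ⁅h, v⁆⁆⁆ + ⁅h, ⁅y, ⁅h, v⁆⁆⁆ := two_smul K _
    rw [this]
    have h2 : (1/2 : K) • ⁅y, v⁆ = (1/4 : K) • ⁅y, v⁆ + (1/4 : K) • ⁅y, v⁆ := by
      rw [← add_smul]; norm_num
    rw [h2]
    abel
  have hXX : ∀ (y : g) (v : U), ⁅⁅h, ⁅h, y⁆⁆ + ⁅h, y⁆, ⁅⁅h, ⁅h, y⁆⁆ + ⁅h, y⁆, v⁆⁆ = 0 := by
    intro y v
    obtain ⟨w, hw⟩ : ∃ w, w = ⁅⁅h, ⁅h, y⁆⁆ + ⁅h, y⁆, v⁆ := ⟨_, rfl⟩
    have h1 : ⁅h, w⁆ = (1/2 : K) • w := by
      rw [hw, hX, lie_sub, lie_add, lie_sub, lie_smul, lie_smul, hh, hh]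
      simp only [smul_sub, smul_add, smul_smul]
      module
    rw [← hw, hX, h1, lie_smul, lie_smul]
    simp only [smul_smul]
    module
  by_contra hcon
  push Not at hcon
  have h0 : ∀ (y : g) (v : U), ⁅⁅h, ⁅h, y⁆⁆ + ⁅h, y⁆, v⁆ = 0 := fun y v => hcon _ (hXX y) v
  let W : LieSubmodule K g U :=
    { carrier := {v | ⁅h, v⁆ = (-(1/2) : K) • v}
      add_mem' := by
        intro a b ha hb
        show ⁅h, a + b⁆ = _
        have ha' : ⁅h, a⁆ = (-(1/2) : K) • a := ha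
        have hb' : ⁅h, b⁆ = (-(1/2) : K) • b := hb
        rw [lie_add, ha', hb', smul_add]
      zero_mem' := by
        show ⁅h, (0 : U)⁆ = _
        rw [lie_zero, smul_zero]
      smul_mem' := by
        intro c a ha
        show ⁅h, c • a⁆ = _
        have ha' : ⁅h, a⁆ = (-(1/2) : K) • a := ha
        rw [lie_smul, ha', smul_comm]
      lie_mem := by
        intro y v hv
        show ⁅h, ⁅y, v⁆⁆ = _
        have hv' : ⁅h, v⁆ = (-(1/2) : K) • v := hv
        have h1 := h0 y v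
        rw [hX, hv', lie_smul, lie_smul] at h1
        have h2 : (2 : K) • ⁅h, ⁅y, v⁆⁆ = (2 : K) • ((-(1/2) : K) • ⁅y, v⁆) := by
          rw [← sub_eq_zero, ← h1]
          simp only [smul_smul]
          module
        exact smul_right_injective U (two_ne_zero : (2 : K) ≠ 0) h2 }
  obtain ⟨e, f, he, hf, hhe, hhf⟩ := Pool.Agent.OU.eig_vecs h hh hns
  rcases eq_bot_or_eq_top W with hW | hW
  · have : f ∈ W := hhf
    rw [hW] at this
    exact hf (by simpa using this)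
  · apply hns
    refine ⟨-(1/2), fun v => ?_⟩
    have : v ∈ W := by rw [hW]; exact LieSubmodule.mem_top v
    exact this

/-- γ normalises the image of g. -/
def Norm (K : Type*) [Field K] (g : Type*) [LieRing g] (V : Type*) [AddCommGroup V] [Module K V]
    [LieRingModule g V] (γ : V ≃ₗ[K] V) : Prop :=
  ∀ x : g, ∃ y : g, ∀ v : V, γ ⁅x, v⁆ = ⁅y, γ v⁆

/-- The characteristic polynomial of γ has coefficients in O, and reduces to that of the
permutation σ divided by (X-1)^(n-d). -/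
def Red (O : ValuationSubring K) {n : ℕ} {V : Type*} [AddCommGroup V] [Module K V]
    [FiniteDimensional K V] (γ : V ≃ₗ[K] V) (σ : Equiv.Perm (Fin n)) : Prop :=
  ∃ Q : Polynomial O, Q.map (algebraMap O K) = LinearMap.charpoly (γ : V →ₗ[K] V) ∧
    (X - 1) ^ (n - finrank K V) * Q.map (residue O) = (σ.permMatrix (ResidueField O)).charpoly

theorem exists_s [IsAlgClosed K] (O : ValuationSubring K) {n m c : ℕ} (hm : 2 ≤ m)
    (hmk : (m : ResidueField O) ≠ 0) (σ : Equiv.Perm (Fin n))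
    (hσ : (σ.permMatrix (ResidueField O)).charpoly =
        (Polynomial.X ^ m - 1) ^ c * (Polynomial.X - 1) ^ (n - m * c))
    (γ : U ≃ₗ[K] U) (hγ : Norm K g U γ) (hr : Red O γ σ) :
    ∃ s : U ≃ₗ[K] U, Norm K g U s ∧
      finrank K (LinearMap.range ((s : Module.End K U) - 1)) = (m - 1) * c ∧
      ∃ ζ : K, ζ ≠ 1 ∧ finrank K (Module.End.eigenspace (s : Module.End K U) ζ) = c := by
  obtain ⟨Q, hQ, hres⟩ := hr
  rw [hσ] at hres
  obtain ⟨s, hs, h1, h2⟩ := lift_res γ (toEnd K g U).range.toSubmodule (by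
    rintro _ ⟨x, rfl⟩
    obtain ⟨y, hy⟩ := hγ x
    refine ⟨y, ?_⟩
    ext v
    obtain ⟨w, rfl⟩ := γ.surjective v
    show _ = γ.conj (toEnd K g U x) (γ w)
    rw [conj_apply']
    exact (hy w).symm) Q hQ hm hmk hres
  refine ⟨s, fun x => ?_, h1, h2⟩
  obtain ⟨y, hy⟩ := hs (toEnd K g U x) ⟨x, rfl⟩
  refine ⟨y, fun v => ?_⟩
  have h3 := LinearMap.congr_fun hy (s v)
  have h4 : s.conj (toEnd K g U x) (s v) = s (toEnd K g U x v) := conj_apply' s _ v
  rw [h4] at h3
  exact h3.symm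

/-- The elements of the normaliser needed, depending on p. -/
def HasS (K : Type*) [Field K] (g : Type*) [LieRing g] (V : Type*) [AddCommGroup V] [Module K V]
    [LieRingModule g V] (m c : ℕ) : Prop :=
  ∃ s : V ≃ₗ[K] V, Norm K g V s ∧
      finrank K (LinearMap.range ((s : Module.End K V) - 1)) = (m - 1) * c ∧
      ∃ ζ : K, ζ ≠ 1 ∧ finrank K (Module.End.eigenspace (s : Module.End K V) ζ) = c

theorem ns_of_mult (h : g) {a b : ℕ}
    (ha : finrank K (Module.End.eigenspace (LieModule.toEnd K g U h) (1/2)) = a)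
    (hb : finrank K (Module.End.eigenspace (LieModule.toEnd K g U h) (-(1/2))) = b)
    (ha0 : 0 < a) (hb0 : 0 < b) : ¬ ∃ c : K, ∀ v : U, ⁅h, v⁆ = c • v := by
  rintro ⟨c, hc⟩
  have key : ∀ e : K, e ≠ c → Module.End.eigenspace (LieModule.toEnd K g U h) e = ⊥ := by
    intro e he
    rw [eq_bot_iff]
    intro v hv
    rw [Module.End.mem_eigenspace_iff] at hv
    have h4 : c • v = e • v := by rw [← hc v]; exact hv
    have h5 : (c - e) • v = 0 := by rw [sub_smul, h4, sub_self]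
    exact (smul_eq_zero.mp h5).resolve_left (sub_ne_zero.mpr he.symm)
  by_cases h6 : (1/2 : K) = c
  · have h7 := key (-(1/2)) (by
      rw [← h6]
      intro h8
      have : (1 : K) = 0 := by linear_combination -h8
      exact one_ne_zero this)
    rw [h7, finrank_bot] at hb
    omega
  · rw [key _ h6, finrank_bot] at ha
    omega

/-- The image is simple. -/
theorem psimple_one [IsAlgClosed K] [LieModule.IsIrreducible K g U] {p : ℕ} {S : Prop} (h : g)
    (hh : ∀ v : U, ⁅h, ⁅h, v⁆⁆ = (1/4 : K) • v) {a b : ℕ}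
    (ha : finrank K (Module.End.eigenspace (LieModule.toEnd K g U h) (1/2)) = a)
    (hb : finrank K (Module.End.eigenspace (LieModule.toEnd K g U h) (-(1/2))) = b)
    (hPS : PS p (finrank K U) a b S) (h3 : p ≠ 3 → HasS K g U 3 1)
    (h2 : p = 3 → HasS K g U 2 2) (h5 : p = 3 → HasS K g U 5 1) (h1 : S → HasS K g U 2 1) :
    Pool.Agent.OU.PSimple K g U := by
  by_contra hnot
  obtain ⟨ha0, hb0, hPS⟩ := hPS
  have hns := ns_of_mult h ha hb ha0 hb0
  obtain ⟨α, β, hα, hβ, hαβ, hβa, hdich⟩ := dichotomy hnot h hh hns ha hb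
  refine hPS α β hα hβ hαβ hβa ?_ ?_ ?_ ?_
  · intro hp
    obtain ⟨s, hs, hr, ζ, -, hζ⟩ := h3 hp
    have h6 := hdich s hs
    rw [hr] at h6
    rcases h6 with h6 | ⟨h6, h7⟩
    · left; simpa using h6
    · right
      constructor
      · by_contra hlt
        have h8 := h6 (by omega) ζ
        rw [hζ] at h8
        have := Nat.le_of_dvd one_pos h8
        omega
      · by_contra hlt
        have h8 := h7 (by omega) ζ
        rw [hζ] at h8
        have := Nat.le_of_dvd one_pos h8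
        omega
  · intro hp
    obtain ⟨s, hs, hr, ζ, -, hζ⟩ := h2 hp
    have h6 := hdich s hs
    rw [hr] at h6
    rcases h6 with h6 | ⟨h6, h7⟩
    · left; simpa using h6
    · right
      refine ⟨fun hlt => ?_, fun hlt => ?_⟩
      · have h8 := h6 (by omega) ζ
        rwa [hζ] at h8
      · have h8 := h7 (by omega) ζ
        rwa [hζ] at h8
  · intro hp
    obtain ⟨s, hs, hr, ζ, -, hζ⟩ := h5 hp
    have h6 := hdich s hs
    rw [hr] at h6
    rcases h6 with h6 | ⟨h6, h7⟩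
    · left; simpa using h6
    · right
      constructor
      · by_contra hlt
        have h8 := h6 (by omega) ζ
        rw [hζ] at h8
        have := Nat.le_of_dvd one_pos h8
        omega
      · by_contra hlt
        have h8 := h7 (by omega) ζ
        rw [hζ] at h8
        have := Nat.le_of_dvd one_pos h8
        omega
  · intro hS
    obtain ⟨s, hs, hr, ζ, -, hζ⟩ := h1 hS
    have h6 := hdich s hs
    rw [hr] at h6
    rcases h6 with h6 | ⟨h6, h7⟩
    · simpa using h6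
    · exfalso
      have h8 := h6 (by omega) ζ
      rw [hζ] at h8
      have := Nat.le_of_dvd one_pos h8
      omega

/-- An element of HasS is not a scalar. -/
theorem nsc_of_S [Nontrivial U] {m c : ℕ} (hc : 0 < c) (hlt : (m - 1) * c < finrank K U)
    (s : U ≃ₗ[K] U)
    (hr : finrank K (LinearMap.range ((s : Module.End K U) - 1)) = (m - 1) * c) {ζ : K} (hζ1 : ζ ≠ 1)
    (hζ : finrank K (Module.End.eigenspace (s : Module.End K U) ζ) = c) :
    ¬ ∃ a : K, ∀ v : U, s v = a • v := by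
  rintro ⟨a, ha⟩
  have h1 : ∀ e : K, e ≠ a → Module.End.eigenspace (s : Module.End K U) e = ⊥ := by
    intro e he
    rw [eq_bot_iff]
    intro v hv
    rw [Module.End.mem_eigenspace_iff] at hv
    have h4 : a • v = e • v := by rw [← ha v]; exact hv
    have h5 : (a - e) • v = 0 := by rw [sub_smul, h4, sub_self]
    exact (smul_eq_zero.mp h5).resolve_left (sub_ne_zero.mpr he.symm)
  by_cases h : ζ = a
  · have h2 := h1 1 (by rw [← h]; exact hζ1.symm)
    have h3 := LinearMap.finrank_range_add_finrank_ker ((s : Module.End K U) - 1)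
    have h4 : LinearMap.ker ((s : Module.End K U) - 1) = ⊥ := by
      rw [← h2, Module.End.eigenspace_def, one_smul]
    rw [h4, finrank_bot, hr] at h3
    omega
  · rw [h1 ζ h, finrank_bot] at hζ
    omega

/-- The image contains sl(U). -/
theorem onSl_one [IsAlgClosed K] [LieModule.IsIrreducible K g U]
    (hPS : Pool.Agent.OU.PSimple K g U) (h : g)
    (hh : ∀ v : U, ⁅h, ⁅h, v⁆⁆ = (1/4 : K) • v) {a b : ℕ}
    (ha : finrank K (Module.End.eigenspace (LieModule.toEnd K g U h) (1/2)) = a)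
    (hb : finrank K (Module.End.eigenspace (LieModule.toEnd K g U h) (-(1/2))) = b)
    (ha0 : 0 < a) (hb0 : 0 < b)
    (hne : ∃ h : g, (∀ v : U, ⁅h, ⁅h, v⁆⁆ = (1/4 : K) • v) ∧ (¬ ∃ c : K, ∀ v : U, ⁅h, v⁆ = c • v) ∧
        finrank K (Module.End.eigenspace (LieModule.toEnd K g U h) (1/2)) ≠
          finrank K (Module.End.eigenspace (LieModule.toEnd K g U h) (-(1/2))))
    (hd : 3 ≤ finrank K U)
    (hbig : (a ≠ b ∧ ¬ Bin a b) ∨
      (4 * finrank K U < a * b ∧ (HasS K g U 3 1 ∨ HasS K g U 2 2)) ∨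
      (2 * finrank K U < a * b ∧ HasS K g U 2 1)) :
    ∀ z : Module.End K U, LinearMap.trace K U z = 0 →
      ∃ (y : g) (c : K), ∀ v : U, ⁅y, v⁆ = z v + c • v := by
  have hnt : Nontrivial U := nontrivial_of_isIrreducible K g U
  have hns := ns_of_mult h ha hb ha0 hb0
  have h1s : ∀ s : U ≃ₗ[K] U, (s : Module.End K U) - (1 : K) • (1 : Module.End K U) =
      (s : Module.End K U) - 1 := fun s => by rw [one_smul]
  refine Pool.Agent.OU.condU2 hPS h hh hns (Or.inr hne) ha hb ?_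
  rcases hbig with ⟨hab, hbin⟩ | ⟨hlt, hS⟩ | ⟨hlt, hS⟩
  · right
    obtain ⟨x, hx1, hx2⟩ := exists_sq h hh hns
    refine ⟨x, hx1, hx2, fun _ hE => hbin ?_, fun h => absurd h hab⟩
    obtain ⟨m, k, h1, h2, h3, h4, -⟩ := hE
    exact ⟨m, k, h1, h2, h3, h4⟩
  · left
    right
    have hS' : ∃ m c, (m - 1) * c = 2 ∧ 0 < c ∧ HasS K g U m c := by
      rcases hS with hS | hS
      · exact ⟨3, 1, rfl, one_pos, hS⟩
      · exact ⟨2, 2, rfl, two_pos, hS⟩
    obtain ⟨m, c, hmc, hc, s, hs, hr, ζ, hζ1, hζ⟩ := hS'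
    refine ⟨s, 1, hs, nsc_of_S hc (by omega) s hr hζ1 hζ, ?_⟩
    rw [h1s, hr, hmc]
    omega
  · left
    right
    obtain ⟨s, hs, hr, ζ, hζ1, hζ⟩ := hS
    refine ⟨s, 1, hs, nsc_of_S one_pos (by omega) s hr hζ1 hζ, ?_⟩
    rw [h1s, hr]
    omega

end Pool.Agent.SJ
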