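import Pool.Agent.Lib_helper54.SJ.Dims

/-! An element of small rank in the normaliser commutes with the other factor. -/

set_option autoImplicit false
set_option linter.unusedSectionVars false

namespace Pool.Agent.SJ

open Module

variable {K V B : Type*} [Field K] [AddCommGroup V] [Module K V] [FiniteDimensional K V]
  [Ring B] [Algebra K B] [Module B V] [IsScalarTower K B V]

/-- The image of a B-submodule under s. -/
def mapS (s : V ≃ₗ[K] V) (hs : ∀ b : B, ∃ b' : B, ∀ v, b • s v = s (b' • v))
    (W : Submodule B V) : Submodule B V :=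
  { (W.restrictScalars K).map (s : V →ₗ[K] V) with
    smul_mem' := by
      rintro b _ ⟨w, hw, rfl⟩
      obtain ⟨b', hb'⟩ := hs b
      exact ⟨b' • w, W.smul_mem b' hw, (hb' w).symm⟩ }

/-- s preserves the simple submodules of dimension greater than rank (s - 1). -/
theorem stab_of_rank (s : V ≃ₗ[K] V) (hs : ∀ b : B, ∃ b' : B, ∀ v, b • s v = s (b' • v))
    (W : Submodule B V) [hW : IsSimpleModule B W]
    (hrk : finrank K (LinearMap.range ((s : Module.End K V) - 1)) < finrank K W) :
    ∀ w ∈ W, s w ∈ W := by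
  let W' : Submodule K V := W.restrictScalars K
  have hW' : finrank K W' = finrank K W := rfl
  have h1 : W' ⊓ LinearMap.ker ((s : Module.End K V) - 1) ≠ ⊥ := by
    intro h
    have h2 := Submodule.finrank_sup_add_finrank_inf_eq W' (LinearMap.ker ((s : Module.End K V) - 1))
    rw [h, finrank_bot, add_zero, hW'] at h2
    have h3 := LinearMap.finrank_range_add_finrank_ker ((s : Module.End K V) - 1)
    have h4 := Submodule.finrank_le (W' ⊔ LinearMap.ker ((s : Module.End K V) - 1))
    omega
  obtain ⟨w₀, ⟨hw₀, hk⟩, hne⟩ := (Submodule.ne_bot_iff _).mp h1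
  have hsw : s w₀ = w₀ := by
    have h2 : ((s : Module.End K V) - 1) w₀ = 0 := hk
    rw [LinearMap.sub_apply, Module.End.one_apply, sub_eq_zero] at h2
    exact h2
  have hat : IsAtom W := isSimpleModule_iff_isAtom.mp hW
  have h2 : W ⊓ mapS s hs W = W := by
    rcases hat.le_iff.mp (inf_le_left : W ⊓ mapS s hs W ≤ W) with h | h
    · exfalso
      have h3 : w₀ ∈ W ⊓ mapS s hs W := ⟨hw₀, ⟨w₀, hw₀, hsw⟩⟩
      rw [h] at h3
      exact hne (by simpa using h3)
    · exact h
  have h3 : W' ≤ W'.map (s : V →ₗ[K] V) := fun w hw => by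
    have h4 : w ∈ W ⊓ mapS s hs W := by rw [h2]; exact hw
    exact h4.2
  have h4 : finrank K (W'.map (s : V →ₗ[K] V)) = finrank K W' := LinearEquiv.finrank_map_eq s W'
  have h5 : W' = W'.map (s : V →ₗ[K] V) := Submodule.eq_of_le_of_finrank_eq h3 h4.symm
  intro w hw
  have h6 : s w ∈ W'.map (s : V →ₗ[K] V) := ⟨w, hw, rfl⟩
  rw [← h5] at h6
  exact h6

/-- s commutes with the endomorphisms commuting with B. -/
theorem comm_of_rank [IsAlgClosed K] (hss : sSup {m : Submodule B V | IsSimpleModule B m} = ⊤)
    (s : V ≃ₗ[K] V) (hs : ∀ b : B, ∃ b' : B, ∀ v, b • s v = s (b' • v))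
    (hrk : ∀ W : Submodule B V, IsSimpleModule B W →
      finrank K (LinearMap.range ((s : Module.End K V) - 1)) < finrank K W)
    (x : V →ₗ[B] V) (v : V) : s (x v) = x (s v) := by
  -- s preserves the images of simple modules
  have key : ∀ (W : Submodule B V), IsSimpleModule B W → ∀ g : W →ₗ[B] V, ∀ w : W, ∃ w' : W,
      s (g w) = g w' := by
    intro W hW g w
    have hnt : Nontrivial W := IsSimpleModule.nontrivial B W
    by_cases hg : g = 0
    · exact ⟨0, by rw [hg]; simp⟩
    have hinj : Function.Injective g := by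
      rw [← LinearMap.ker_eq_bot, LinearMap.ker_eq_bot']
      intro w hw
      by_contra hne
      exact hg (ker_of_simple g hne hw)
    have hR : IsSimpleModule B (LinearMap.range g) :=
      IsSimpleModule.congr (LinearEquiv.ofInjective g hinj).symm
    have h1 := stab_of_rank s hs (LinearMap.range g) (hrk _ hR) (g w) ⟨w, rfl⟩
    obtain ⟨w', hw'⟩ := h1
    exact ⟨w', hw'.symm⟩
  have main : ∀ (W : Submodule B V), IsSimpleModule B W → ∀ w ∈ W, s (x w) = x (s w) := by
    intro W hW w hw
    have hat : IsAtom W := isSimpleModule_iff_isAtom.mp hW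
    obtain ⟨w₁, h1⟩ := key W hW W.subtype ⟨w, hw⟩
    have h1' : s w = w₁ := h1
    obtain ⟨w₂, h2⟩ := key W hW (x.comp W.subtype) ⟨w, hw⟩
    have h2' : s (x w) = x w₂ := h2
    obtain ⟨w₃, h3⟩ := key W hW (W.subtype + x.comp W.subtype) ⟨w, hw⟩
    have h3' : s (w + x w) = w₃ + x w₃ := h3
    rw [map_add, h1', h2'] at h3'
    rw [h1', h2']
    -- W ∩ xW
    rcases hat.le_iff.mp (inf_le_left : W ⊓ W.map x ≤ W) with h | h
    · -- disjoint
      have h4 : (w₁ : V) - w₃ = x (w₃ - w₂) := by
        rw [map_sub, sub_eq_sub_iff_add_eq_add, h3', add_comm]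
      have h5 : (w₁ : V) - w₃ ∈ W ⊓ W.map x :=
        ⟨W.sub_mem w₁.2 w₃.2, ⟨w₃ - w₂, W.sub_mem w₃.2 w₂.2, h4.symm⟩⟩
      rw [h, Submodule.mem_bot] at h5
      rw [h5] at h4
      rw [map_sub] at h4
      have h6 : x (w₃ : V) = x w₂ := sub_eq_zero.mp h4.symm
      rw [← h6, sub_eq_zero.mp h5]
    · -- x preserves W
      have hle : W ≤ W.map x := by
        have h12 : W ⊓ W.map x ≤ W.map x := inf_le_right
        rwa [h] at h12
      have hfin : finrank K ((W.restrictScalars K).map (x.restrictScalars K)) ≤
          finrank K (W.restrictScalars K) := Submodule.finrank_map_le _ _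
      have h7 : (W.restrictScalars K) ≤ (W.restrictScalars K).map (x.restrictScalars K) :=
        fun v hv => hle hv
      have h8 : (W.restrictScalars K) = (W.restrictScalars K).map (x.restrictScalars K) :=
        Submodule.eq_of_le_of_finrank_le h7 hfin
      have h9 : ∀ w ∈ W, x w ∈ W := by
        intro w hw
        have : x w ∈ (W.restrictScalars K).map (x.restrictScalars K) := ⟨w, hw, rfl⟩
        rw [← h8] at this
        exact this
      have hfW : Module.Finite K W :=
        Module.Finite.of_injective (W.subtype.restrictScalars K) W.subtype_injective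
      obtain ⟨c, hc⟩ := schur_simple (K := K) (x.restrict h9)
      have h10 : ∀ w : W, x w = c • (w : V) := fun w => congrArg Subtype.val (hc w)
      have h11 : s (x w) = c • s w := by
        have := h10 ⟨w, hw⟩
        have h12 : x w = c • w := this
        rw [h12, map_smul]
      rw [← h2', h11, h1', h10]
  have hv : v ∈ sSup {m : Submodule B V | IsSimpleModule B m} := by rw [hss]; trivial
  rw [sSup_eq_iSup'] at hv
  induction hv using Submodule.iSup_induction' with
  | mem m w hw => exact main m.1 m.2 w hw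
  | zero => simp
  | add v w _ _ h1 h2 => rw [map_add, map_add, map_add, map_add, h1, h2]

end Pool.Agent.SJ
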