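import Pool.Agent.Lib_helper24.GS.G2

/-! Two commuting algebras acting irreducibly: the dimensions of the simple modules. -/

set_option autoImplicit false
set_option linter.unusedSectionVars false

namespace Pool.Agent.SJ

open Module

section generic

variable {K V A B : Type*} [Field K] [AddCommGroup V] [Module K V]
  [Ring A] [Algebra K A] [Module A V] [IsScalarTower K A V]
  [Ring B] [Algebra K B] [Module B V] [IsScalarTower K B V] [SMulCommClass B A V]

theorem ker_of_simple {M N : Type*} [AddCommGroup M] [Module A M] [AddCommGroup N] [Module A N]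
    [IsSimpleModule A N] (f : N →ₗ[A] M) {n : N} (hn : n ≠ 0) (h : f n = 0) : f = 0 := by
  have hk : LinearMap.ker f = ⊤ := by
    refine (eq_bot_or_eq_top (LinearMap.ker f)).resolve_left fun h' => hn ?_
    have : n ∈ LinearMap.ker f := h
    rw [h'] at this
    simpa using this
  exact LinearMap.ker_eq_top.mp hk

/-- Schur's lemma. -/
theorem schur_simple [IsAlgClosed K] {N : Type*} [AddCommGroup N] [Module K N] [Module A N]
    [IsScalarTower K A N] [IsSimpleModule A N] [Module.Finite K N] (φ : N →ₗ[A] N) :
    ∃ c : K, ∀ x : N, φ x = c • x := by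
  have hnt : Nontrivial N := IsSimpleModule.nontrivial A N
  let φ' : Module.End K N := φ.restrictScalars K
  obtain ⟨c, hc⟩ := Module.End.exists_eigenvalue φ'
  obtain ⟨v, hv, hv0⟩ := hc.exists_hasEigenvector
  refine ⟨c, ?_⟩
  have h2 : φ - c • LinearMap.id = 0 := by
    refine ker_of_simple _ hv0 ?_
    have h1 := Module.End.mem_eigenspace_iff.mp hv
    rw [LinearMap.sub_apply, LinearMap.smul_apply, LinearMap.id_apply, sub_eq_zero]
    exact h1
  intro x
  have h3 := LinearMap.congr_fun h2 x
  rw [LinearMap.sub_apply, LinearMap.smul_apply, LinearMap.id_apply, LinearMap.zero_apply,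
    sub_eq_zero] at h3
  exact h3

/-- The element b of B as an A-linear map. -/
def bmap (A : Type*) [Ring A] [Module A V] [SMulCommClass B A V] (b : B) : V →ₗ[A] V :=
  { toFun := fun v => b • v
    map_add' := fun v w => smul_add b v w
    map_smul' := fun a v => smul_comm b a v }

theorem iso_top 
    (hirr : ∀ W : Submodule K V, (∀ a : A, ∀ w ∈ W, a • w ∈ W) → (∀ b : B, ∀ w ∈ W, b • w ∈ W) →
      W = ⊥ ∨ W = ⊤) (N : Submodule A V) [IsSimpleModule A N] :
    isotypicComponent A V N = ⊤ := by
  let Y : Submodule K V := (isotypicComponent A V N).restrictScalars K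
  have hYt : Y = ⊤ := by
    refine (hirr Y ?_ ?_).resolve_left ?_
    · intro a w hw
      exact (isotypicComponent A V N).smul_mem a hw
    · intro b w hw
      exact LinearMap.le_comap_isotypicComponent N (bmap A b) hw
    · intro h
      have hnt : Nontrivial N := IsSimpleModule.nontrivial A N
      obtain ⟨v, hv⟩ := exists_ne (0 : N)
      have : (v : V) ∈ Y := Submodule.le_isotypicComponent N v.2
      rw [h] at this
      exact hv (Subtype.ext (by simpa using this))
  rw [eq_top_iff]
  intro v _
  have : v ∈ Y := by rw [hYt]; trivial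
  exact this

theorem sSup_simple {V R : Type*} [Ring R] [AddCommGroup V] [Module R V] (N : Submodule R V)
    [IsSimpleModule R N] (h : isotypicComponent R V N = ⊤) :
    sSup {m : Submodule R V | IsSimpleModule R m} = ⊤ := by
  rw [eq_top_iff, ← h]
  refine sSup_le_sSup fun m hm => ?_
  obtain ⟨e⟩ := hm
  exact IsSimpleModule.congr e

/-- The dimensions of the simple modules of two commuting algebras acting irreducibly. -/
theorem dims [IsAlgClosed K] [FiniteDimensional K V] [Nontrivial V]
    (hirr : ∀ W : Submodule K V, (∀ a : A, ∀ w ∈ W, a • w ∈ W) → (∀ b : B, ∀ w ∈ W, b • w ∈ W) →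
      W = ⊥ ∨ W = ⊤) :
    ∃ α β : ℕ, 0 < α ∧ 0 < β ∧ α * β = finrank K V ∧
      (∀ W : Submodule A V, α ∣ finrank K W) ∧ (∀ W : Submodule B V, β ∣ finrank K W) ∧
      (α = 1 → ∀ a : A, ∃ c : K, ∀ v : V, a • v = c • v) ∧
      (β = 1 → ∀ b : B, ∃ c : K, ∀ v : V, b • v = c • v) ∧
      sSup {m : Submodule A V | IsSimpleModule A m} = ⊤ ∧
      sSup {m : Submodule B V | IsSimpleModule B m} = ⊤ ∧
      ∃ W : Submodule B V, finrank K W = β := by
  classical
  have hSC : SMulCommClass A B V := SMulCommClass.symm B A V
  have hAr : IsArtinian A V := isArtinian_of_tower K inferInstance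
  have hBr : IsArtinian B V := isArtinian_of_tower K inferInstance
  obtain ⟨N, hN⟩ := IsAtomic.exists_atom (Submodule A V)
  have hNs : IsSimpleModule A N := isSimpleModule_iff_isAtom.mpr hN
  have hT := iso_top (A := A) (B := B) hirr N
  obtain ⟨h1, h2, h3⟩ := Pool.Agent.GS.iso_dvd (K := K) N hT
  -- V = N^m
  have hI := IsIsotypicOfType.of_isotypicComponent_eq_top hT
  have hss : IsSemisimpleModule A V := by
    refine IsSemisimpleModule.of_sSup_simples_eq_top (eq_top_iff.mpr ?_)
    rw [← hT]
    refine sSup_le_sSup fun m hm => ?_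
    obtain ⟨e⟩ := hm
    exact IsSimpleModule.congr e
  have hfV : Module.Finite A V := Module.Finite.of_restrictScalars_finite K A V
  have hfN : Module.Finite K N :=
    Module.Finite.of_injective (N.subtype.restrictScalars K) N.subtype_injective
  obtain ⟨m, ⟨e⟩⟩ := hI.linearEquiv_fun
  have hd : finrank K V = m * finrank K N := by
    rw [(e.restrictScalars K).finrank_eq, finrank_pi_fintype]
    simp
  -- the homomorphisms
  have hnt : Nontrivial N := IsSimpleModule.nontrivial A N
  obtain ⟨n, hn⟩ := exists_ne (0 : N)
  let ev : (N →ₗ[A] V) →ₗ[K] V :=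
    { toFun := fun f => f n
      map_add' := fun f g => rfl
      map_smul' := fun c f => rfl }
  have hevi : Function.Injective ev := by
    rw [← LinearMap.ker_eq_bot, LinearMap.ker_eq_bot']
    intro f hf
    exact ker_of_simple f hn hf
  have hfE : Module.Finite K (N →ₗ[A] V) := Module.Finite.of_injective ev hevi
  have hE : finrank K (N →ₗ[A] V) ≤ m := by
    have hs : ∀ (f : N →ₗ[A] V) (i : Fin m), ∃ c : K, ∀ x : N, e (f x) i = c • x := by
      intro f i
      let φ : N →ₗ[A] N := (LinearMap.proj i).comp (e.toLinearMap.comp f)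
      obtain ⟨c, hc'⟩ := schur_simple (K := K) φ
      exact ⟨c, hc'⟩
    choose c hc' using hs
    have huniq : ∀ a b : K, a • n = b • n → a = b := by
      intro a b hab
      have h4 : (a - b) • n = 0 := by rw [sub_smul, hab, sub_self]
      exact sub_eq_zero.mp ((smul_eq_zero.mp h4).resolve_right hn)
    have hadd : ∀ f g, c (f + g) = c f + c g := by
      intro f g
      funext i
      apply huniq
      rw [Pi.add_apply, add_smul, ← hc', ← hc', ← hc', LinearMap.add_apply, map_add,
        Pi.add_apply]
    have hsm : ∀ (a : K) f, c (a • f) = a • c f := by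
      intro a f
      funext i
      apply huniq
      have h5 := congrFun ((e.restrictScalars K).map_smul a (f n)) i
      have h6 : e ((a • f) n) i = a • e (f n) i := h5
      rw [Pi.smul_apply, smul_eq_mul, mul_smul, ← hc', ← hc', h6]
    let r : (N →ₗ[A] V) →ₗ[K] (Fin m → K) :=
      { toFun := c
        map_add' := hadd
        map_smul' := hsm }
    have hr : Function.Injective r := by
      rw [← LinearMap.ker_eq_bot, LinearMap.ker_eq_bot']
      intro f hf
      refine ker_of_simple f hn ?_
      apply e.injective
      rw [map_zero]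
      funext i
      have h4 : c f i = 0 := congrFun hf i
      rw [hc' f i n, h4, zero_smul]
      rfl
    have := LinearMap.finrank_le_finrank_of_injective hr
    rwa [finrank_fin_fun] at this
  -- composition with elements of B
  let bf : B → (N →ₗ[A] V) → (N →ₗ[A] V) := fun b f => (bmap A b).comp f
  let W' : Submodule B V :=
    { LinearMap.range ev with
      smul_mem' := by
        rintro b _ ⟨f, rfl⟩
        exact ⟨bf b f, rfl⟩ }
  have hW'0 : W' ≠ ⊥ := by
    intro h
    have h4 : (n : V) ∈ W' := ⟨N.subtype, rfl⟩
    rw [h] at h4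
    exact hn (Subtype.ext (by simpa using h4))
  obtain ⟨N', hN', hle⟩ := (IsAtomic.eq_bot_or_exists_atom_le W').resolve_left hW'0
  have hNs' : IsSimpleModule B N' := isSimpleModule_iff_isAtom.mpr hN'
  have hT' := iso_top (A := B) (B := A) (fun W h1 h2 => hirr W h2 h1) N'
  obtain ⟨k1, k2, k3⟩ := Pool.Agent.GS.iso_dvd (K := K) N' hT'
  have hfN' : Module.Finite K N' :=
    Module.Finite.of_injective (N'.subtype.restrictScalars K) N'.subtype_injective
  -- the upper bound
  have hup : finrank K N' ≤ m := by
    have h4 : finrank K N' ≤ finrank K (LinearMap.range ev) := by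
      have h5 : N'.restrictScalars K ≤ LinearMap.range ev := fun v hv => hle hv
      exact Submodule.finrank_mono h5
    rw [LinearMap.finrank_range_of_inj hevi] at h4
    exact h4.trans hE
  -- the lower bound
  have hlo : finrank K V ≤ finrank K N' * finrank K N := by
    let M : Submodule K (N →ₗ[A] V) := (N'.restrictScalars K).comap ev
    have hM : finrank K M ≤ finrank K N' := by
      let r : M →ₗ[K] N' :=
        { toFun := fun f => ⟨f.1 n, f.2⟩
          map_add' := fun f g => rfl
          map_smul' := fun c f => rfl }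
      refine LinearMap.finrank_le_finrank_of_injective (f := r) ?_
      rw [← LinearMap.ker_eq_bot, LinearMap.ker_eq_bot']
      intro f hf
      exact Subtype.ext (ker_of_simple f.1 hn (congrArg Subtype.val hf))
    let bs := Module.finBasis K M
    let S : (Fin (finrank K M) → N) →ₗ[K] V :=
      ∑ i, ((bs i).1.restrictScalars K).comp (LinearMap.proj i)
    have hSa : ∀ x, S x = ∑ i, (bs i).1 (x i) := by
      intro x
      simp only [S, LinearMap.sum_apply, LinearMap.comp_apply, LinearMap.proj_apply,
        LinearMap.coe_restrictScalars]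
    have hS : ∀ f ∈ M, ∀ x : N, f x ∈ LinearMap.range S := by
      intro f hf x
      refine ⟨fun i => bs.repr ⟨f, hf⟩ i • x, ?_⟩
      have h5 : (∑ i, bs.repr ⟨f, hf⟩ i • (bs i).1) x = f x := by
        have h6 := bs.sum_repr ⟨f, hf⟩
        have h7 := congrArg (fun g : M => (g.1 : N →ₗ[A] V) x) h6
        simp only [Submodule.coe_sum, Submodule.coe_smul] at h7
        exact h7
      rw [← h5]
      refine (hSa _).trans ?_
      rw [LinearMap.sum_apply]
      refine Finset.sum_congr rfl fun i _ => ?_
      exact ((bs i).1.restrictScalars K).map_smul _ x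
    have hSt : LinearMap.range S = ⊤ := by
      refine (hirr _ ?_ ?_).resolve_left ?_
      · rintro a _ ⟨x, rfl⟩
        refine ⟨fun i => a • x i, ?_⟩
        rw [hSa, hSa, Finset.smul_sum]
        exact Finset.sum_congr rfl fun i _ => map_smul _ _ _
      · rintro b _ ⟨x, rfl⟩
        rw [hSa, Finset.smul_sum]
        refine Submodule.sum_mem _ fun i _ => ?_
        have hbf : bf b (bs i).1 ∈ M := by
          show b • ((bs i).1 n) ∈ N'
          exact N'.smul_mem b (bs i).2
        exact hS _ hbf (x i)
      · intro h
        have hnt' : Nontrivial N' := IsSimpleModule.nontrivial B N'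
        obtain ⟨w, hw⟩ := exists_ne (0 : N')
        obtain ⟨f, hf⟩ := hle w.2
        have hfM' : f ∈ M := by
          show f n ∈ N'
          have : f n = w := hf
          rw [this]; exact w.2
        have h5 := hS f hfM' n
        rw [h, Submodule.mem_bot] at h5
        have h6 : f n = w := hf
        rw [h5] at h6
        exact hw (Subtype.ext h6.symm)
    have h8 := LinearMap.finrank_range_le S
    rw [hSt, finrank_top, finrank_pi_fintype, Finset.sum_const, Finset.card_univ,
      Fintype.card_fin, smul_eq_mul] at h8
    exact h8.trans (Nat.mul_le_mul_right _ hM)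
  refine ⟨finrank K N, finrank K N', h1, k1, ?_, h2, k2, h3, k3, sSup_simple N hT,
    sSup_simple N' hT', N', rfl⟩
  apply le_antisymm
  · rw [hd, mul_comm]
    exact Nat.mul_le_mul_right _ hup
  · rw [mul_comm]; exact hlo

end generic

end Pool.Agent.SJ
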