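import Mathlib

/-! The multiplicative Jordan lift: if γ normalises L then so does every s which acts on the
generalised eigenspaces of γ by scalars depending multiplicatively on the eigenvalue. -/

set_option autoImplicit false

namespace Pool.Agent.SJ

open Module

variable {K V : Type*} [Field K] [IsAlgClosed K] [AddCommGroup V] [Module K V]
  [FiniteDimensional K V]

/-- A linear map with prescribed scalars on the generalised eigenspaces. -/
theorem exists_diag (γ : Module.End K V) (c : K → K) :
    ∃ s : Module.End K V, ∀ (α : K), ∀ v ∈ γ.maxGenEigenspace α, s v = c α • v := by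
  classical
  have hI : DirectSum.IsInternal γ.maxGenEigenspace :=
    DirectSum.isInternal_submodule_of_iSupIndep_of_iSup_eq_top γ.independent_maxGenEigenspace
      γ.iSup_maxGenEigenspace_eq_top
  let e := LinearEquiv.ofBijective (DirectSum.coeLinearMap γ.maxGenEigenspace) hI
  refine ⟨e.toLinearMap ∘ₗ DirectSum.lmap (fun α => c α • LinearMap.id) ∘ₗ e.symm.toLinearMap, ?_⟩
  intro α v hv
  have h1 : e (DirectSum.lof K K (fun α => γ.maxGenEigenspace α) α ⟨v, hv⟩) = v := by
    exact DirectSum.coeLinearMap_lof (fun α => γ.maxGenEigenspace α) α ⟨v, hv⟩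
  have h2 : e.symm v = DirectSum.lof K K (fun α => γ.maxGenEigenspace α) α ⟨v, hv⟩ := by
    rw [LinearEquiv.symm_apply_eq, h1]
  rw [LinearMap.comp_apply, LinearMap.comp_apply, LinearEquiv.coe_coe, LinearEquiv.coe_coe, h2,
    DirectSum.lmap_lof, LinearMap.smul_apply, LinearMap.id_apply, map_smul, map_smul, h1]

omit [IsAlgClosed K] [FiniteDimensional K V] in
theorem conj_gen_aux (γ : V ≃ₗ[K] V) (α β : K) (N : ℕ) :
    ∀ (n m : ℕ) (x : Module.End K V) (v : V), n + m = N →
      ((((γ.conj : Module.End K V ≃ₗ[K] Module.End K V) : Module.End K (Module.End K V)) -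
        β • (1 : Module.End K (Module.End K V))) ^ n) x = 0 →
      (((γ : Module.End K V) - α • (1 : Module.End K V)) ^ m) v = 0 →
      (((γ : Module.End K V) - (β * α) • (1 : Module.End K V)) ^ N) (x v) = 0 := by
  induction N with
  | zero =>
    intro n m x v h hx hv
    have h1 : n = 0 := by omega
    have h2 : m = 0 := by omega
    subst h1 h2
    rw [pow_zero, Module.End.one_apply] at hv ⊢
    rw [hv, map_zero]
  | succ N ih =>
    intro n m x v h hx hv
    rcases n with - | n
    · rw [pow_zero, Module.End.one_apply] at hx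
      rw [hx, LinearMap.zero_apply, map_zero]
    rcases m with - | m
    · rw [pow_zero, Module.End.one_apply] at hv
      rw [hv, map_zero, map_zero]
    have key : ((γ : Module.End K V) - (β * α) • (1 : Module.End K V)) (x v) =
        (((((γ.conj : Module.End K V ≃ₗ[K] Module.End K V) : Module.End K (Module.End K V)) -
        β • (1 : Module.End K (Module.End K V))) x) (γ v)) +
          β • x (((γ : Module.End K V) - α • (1 : Module.End K V)) v) := by
      simp only [LinearMap.sub_apply, LinearMap.smul_apply, Module.End.one_apply,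
        LinearEquiv.coe_coe, LinearEquiv.conj_apply, LinearMap.comp_apply,
        LinearEquiv.symm_apply_apply, map_sub, map_smul, smul_sub, smul_smul]
      abel
    rw [pow_succ, Module.End.mul_apply, key, map_add, map_smul]
    have e1 := ih n (m + 1) _ (γ v) (by omega) (by rw [pow_succ, Module.End.mul_apply] at hx; exact hx)
      (by
        have hc : Commute (((γ : Module.End K V) - α • (1 : Module.End K V)) ^ (m + 1))
            (γ : Module.End K V) := by
          apply Commute.pow_left
          apply Commute.sub_left (Commute.refl _)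
          exact (Commute.one_left _).smul_left α
        have := LinearMap.congr_fun hc.eq v
        rw [Module.End.mul_apply, Module.End.mul_apply, hv, map_zero] at this
        exact this)
    have e2 := ih (n + 1) m x ((((γ : Module.End K V) - α • (1 : Module.End K V))) v) (by omega) hx
      (by rw [pow_succ, Module.End.mul_apply] at hv; exact hv)
    rw [e1, e2, smul_zero, add_zero]

omit [IsAlgClosed K] [FiniteDimensional K V] in
theorem conj_gen (γ : V ≃ₗ[K] V) (α β : K) (x : Module.End K V) (v : V)
    (hx : x ∈ Module.End.maxGenEigenspace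
      ((γ.conj : Module.End K V ≃ₗ[K] Module.End K V) : Module.End K (Module.End K V)) β)
    (hv : v ∈ Module.End.maxGenEigenspace (γ : Module.End K V) α) :
    x v ∈ Module.End.maxGenEigenspace (γ : Module.End K V) (β * α) := by
  rw [Module.End.mem_maxGenEigenspace] at hx hv ⊢
  obtain ⟨n, hn⟩ := hx
  obtain ⟨m, hm⟩ := hv
  exact ⟨n + m, conj_gen_aux γ α β (n + m) n m x v rfl hn hm⟩

/-- The multiplicative Jordan lift. -/
theorem lift (γ : V ≃ₗ[K] V) (L : Submodule K (Module.End K V)) (hL : ∀ x ∈ L, γ.conj x ∈ L)
    (c : K → K)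
    (h0 : ∀ α, Module.End.maxGenEigenspace (γ : Module.End K V) α ≠ ⊥ → c α ≠ 0)
    (hc : ∀ α₁ α₂ α₃ α₄, Module.End.maxGenEigenspace (γ : Module.End K V) α₁ ≠ ⊥ →
      Module.End.maxGenEigenspace (γ : Module.End K V) α₂ ≠ ⊥ →
      Module.End.maxGenEigenspace (γ : Module.End K V) α₃ ≠ ⊥ →
      Module.End.maxGenEigenspace (γ : Module.End K V) α₄ ≠ ⊥ →
      α₁ * α₂ = α₃ * α₄ → c α₁ * c α₂ = c α₃ * c α₄) :
    ∃ s : V ≃ₗ[K] V,
      (∀ (α : K), ∀ v ∈ Module.End.maxGenEigenspace (γ : Module.End K V) α, s v = c α • v) ∧
      ∀ x ∈ L, s.conj x ∈ L := by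
  have hsup : ⨆ α, Module.End.maxGenEigenspace (γ : Module.End K V) α = ⊤ :=
    Module.End.iSup_maxGenEigenspace_eq_top _
  have hext : ∀ f g : Module.End K V,
      (∀ (α : K), ∀ v ∈ Module.End.maxGenEigenspace (γ : Module.End K V) α, f v = g v) →
      f = g := by
    intro f g h
    ext v
    have hv : v ∈ ⨆ α, Module.End.maxGenEigenspace (γ : Module.End K V) α := by
      rw [hsup]; trivial
    induction hv using Submodule.iSup_induction' with
    | mem α v hv => exact h α v hv
    | zero => rw [map_zero, map_zero]
    | add v w _ _ h1 h2 => rw [map_add, map_add, h1, h2]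
  obtain ⟨s₀, hs₀⟩ := exists_diag (γ : Module.End K V) c
  obtain ⟨s₁, hs₁⟩ := exists_diag (γ : Module.End K V) (fun α => (c α)⁻¹)
  have hne : ∀ α, ∀ v ∈ Module.End.maxGenEigenspace (γ : Module.End K V) α, v ≠ 0 → c α ≠ 0 := by
    intro α v hv h
    apply h0
    intro hb
    rw [hb] at hv
    exact h (by simpa using hv)
  have h01 : s₀ ∘ₗ s₁ = LinearMap.id := by
    apply hext
    intro α v hv
    by_cases h : v = 0
    · rw [h, map_zero, map_zero]
    rw [LinearMap.comp_apply, hs₁ α v hv, map_smul, hs₀ α v hv, smul_smul,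
      inv_mul_cancel₀ (hne α v hv h), one_smul, LinearMap.id_apply]
  have h10 : s₁ ∘ₗ s₀ = LinearMap.id := by
    apply hext
    intro α v hv
    by_cases h : v = 0
    · rw [h, map_zero, map_zero]
    rw [LinearMap.comp_apply, hs₀ α v hv, map_smul, hs₁ α v hv, smul_smul,
      mul_inv_cancel₀ (hne α v hv h), one_smul, LinearMap.id_apply]
  let s : V ≃ₗ[K] V := LinearEquiv.ofLinearMap s₀ s₁ h01 h10
  have hs : ∀ v, s v = s₀ v := fun v => rfl
  have hss : ∀ v, s.symm v = s₁ v := fun v => rfl
  refine ⟨s, fun α v hv => by rw [hs, hs₀ α v hv], ?_⟩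
  intro x hx
  have hx' : x ∈ ⨆ β, L ⊓ Module.End.maxGenEigenspace
      ((γ.conj : Module.End K V ≃ₗ[K] Module.End K V) : Module.End K (Module.End K V)) β := by
    have h1 := Submodule.inf_iSup_genEigenspace (p := L)
      (f := ((γ.conj : Module.End K V ≃ₗ[K] Module.End K V) : Module.End K (Module.End K V)))
      (fun x hx => hL x hx) ⊤
    have h2 : ⨆ μ, Module.End.genEigenspace
      ((γ.conj : Module.End K V ≃ₗ[K] Module.End K V) : Module.End K (Module.End K V)) μ ⊤ = ⊤ :=
      Module.End.iSup_maxGenEigenspace_eq_top _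
    rw [h2, inf_top_eq] at h1
    rw [h1] at hx
    exact hx
  clear hx
  induction hx' using Submodule.iSup_induction' with
  | zero => rw [map_zero]; exact L.zero_mem
  | add x y _ _ h1 h2 => rw [map_add]; exact L.add_mem h1 h2
  | mem β x hx =>
    obtain ⟨hxL, hxβ⟩ := hx
    by_cases hx0 : x = 0
    · rw [hx0, map_zero]; exact L.zero_mem
    -- some generalised eigenspace on which x is not zero
    obtain ⟨α, v, hv, hxv⟩ : ∃ (α : K) (v : V),
        v ∈ Module.End.maxGenEigenspace (γ : Module.End K V) α ∧ x v ≠ 0 := by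
      by_contra hcon
      push Not at hcon
      exact hx0 (hext x 0 fun α v hv => by rw [hcon α v hv, LinearMap.zero_apply])
    have hv0 : v ≠ 0 := fun h => hxv (by rw [h, map_zero])
    have hα : Module.End.maxGenEigenspace (γ : Module.End K V) α ≠ ⊥ := by
      intro hb
      rw [hb] at hv
      exact hv0 (by simpa using hv)
    have hβα : Module.End.maxGenEigenspace (γ : Module.End K V) (β * α) ≠ ⊥ := by
      intro hb
      have := conj_gen γ α β x v hxβ hv
      rw [hb] at this
      exact hxv (by simpa using this)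
    have hcα := h0 α hα
    have : s.conj x = (c (β * α) * (c α)⁻¹) • x := by
      apply hext
      intro α' w hw
      rw [LinearEquiv.conj_apply, LinearMap.comp_apply, LinearMap.comp_apply, LinearEquiv.coe_coe,
        LinearEquiv.coe_coe, hss, hs₁ α' w hw, map_smul, map_smul, LinearMap.smul_apply]
      have hxw := conj_gen γ α' β x w hxβ hw
      rw [hs, hs₀ _ _ hxw, smul_smul]
      by_cases hxw0 : x w = 0
      · rw [hxw0, smul_zero, smul_zero]
      have hw0 : w ≠ 0 := fun h => hxw0 (by rw [h, map_zero])
      have hα' : Module.End.maxGenEigenspace (γ : Module.End K V) α' ≠ ⊥ := by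
        intro hb
        rw [hb] at hw
        exact hw0 (by simpa using hw)
      have hβα' : Module.End.maxGenEigenspace (γ : Module.End K V) (β * α') ≠ ⊥ := by
        intro hb
        rw [hb] at hxw
        exact hxw0 (by simpa using hxw)
      have hcα' := h0 α' hα'
      have h1 := hc (β * α') α (β * α) α' hβα' hα hβα hα' (by ring)
      congr 1
      field_simp
      linear_combination h1
    rw [this]
    exact L.smul_mem _ hxL

end Pool.Agent.SJ
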