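import Mathlib

/-! Roots of unity of order prime to the residue characteristic. -/

set_option autoImplicit false

namespace Pool.Agent.SJ

open Polynomial IsLocalRing

variable {K : Type*} [Field K] (O : ValuationSubring K)

theorem mem_of_root {Q : Polynomial O} (hQ : Q.Monic) {α : K}
    (h : (Q.map (algebraMap O K)).eval α = 0) : ∃ a : O, (a : K) = α := by
  have h1 : IsIntegral O α := ⟨Q, hQ, by rwa [eval_map] at h⟩
  obtain ⟨a, ha⟩ := IsIntegrallyClosed.isIntegral_iff.mp h1
  exact ⟨a, ha⟩

theorem exists_primitive [IsAlgClosed K] [CharZero K] {m : ℕ} (hm : 0 < m) :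
    ∃ ζ : O, IsPrimitiveRoot ζ m := by
  have : NeZero m := ⟨hm.ne'⟩
  have : NeZero (m : K) := ⟨Nat.cast_ne_zero.mpr hm.ne'⟩
  obtain ⟨z, hz⟩ := HasEnoughRootsOfUnity.exists_primitiveRoot K m
  obtain ⟨a, ha⟩ := mem_of_root O (Q := X ^ m - 1) (monic_X_pow_sub_C 1 hm.ne') (α := z) (by
    simp [hz.pow_eq_one])
  refine ⟨a, IsPrimitiveRoot.of_map_of_injective (f := algebraMap O K) ?_
    (IsFractionRing.injective O K)⟩
  have : algebraMap O K a = z := ha
  rw [this]
  exact hz

variable {O}

/-- Reduction is injective on the roots of unity of order m prime to the characteristic. -/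
theorem root_inj {m : ℕ} (hmk : (m : ResidueField O) ≠ 0) {x y : O} (hx : x ^ m = 1)
    (hy : y ^ m = 1) (h : residue O x = residue O y) : x = y := by
  have hm : m ≠ 0 := fun h => hmk (by rw [h, Nat.cast_zero])
  have hyu : IsUnit y := IsUnit.of_pow_eq_one hy hm
  obtain ⟨u, rfl⟩ := hyu
  set e : O := x * ((u⁻¹ : Oˣ) : O) with he
  have he1 : residue O e = 1 := by
    rw [he, map_mul, h, ← map_mul, Units.mul_inv, map_one]
  have hem : e ^ m = 1 := by
    rw [he, mul_pow, hx, one_mul, ← Units.val_pow_eq_pow_val, inv_pow]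
    have : u ^ m = 1 := Units.ext (by rw [Units.val_pow_eq_pow_val, hy, Units.val_one])
    rw [this, inv_one, Units.val_one]
  have h1 : (∑ i ∈ Finset.range m, e ^ i) * (e - 1) = 0 := by
    rw [geom_sum_mul, hem, sub_self]
  rcases mul_eq_zero.mp h1 with h2 | h2
  · exfalso
    have h3 := congrArg (residue O) h2
    rw [map_sum, map_zero] at h3
    simp only [map_pow, he1, one_pow, Finset.sum_const, Finset.card_range, nsmul_eq_mul,
      mul_one] at h3
    exact hmk h3
  · have h3 : e = 1 := sub_eq_zero.mp h2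
    have h4 : e * u = x := by rw [he, mul_assoc, Units.inv_mul, mul_one]
    rw [← h4, h3, one_mul]

/-- Every root of unity of order m of the residue field lifts. -/
theorem root_lift [IsAlgClosed K] [CharZero K] {m : ℕ} (hm : 0 < m) {x : ResidueField O}
    (hx : x ^ m = 1) : ∃ z : O, z ^ m = 1 ∧ residue O z = x := by
  obtain ⟨ζ, hζ⟩ := exists_primitive O hm
  have h1 := X_pow_sub_one_eq_prod hm hζ
  have h2 := congrArg (fun P => (P.map (residue O)).eval x) h1
  simp only [Polynomial.map_sub, Polynomial.map_pow, map_X, Polynomial.map_one, eval_sub, eval_pow,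
    eval_X, eval_one, hx, sub_self, Polynomial.map_prod, map_C, eval_prod, eval_C] at h2
  obtain ⟨z, hz, h3⟩ := Finset.prod_eq_zero_iff.mp h2.symm
  refine ⟨z, ?_, (sub_eq_zero.mp h3).symm⟩
  exact (mem_nthRootsFinset hm (1 : O)).mp hz

end Pool.Agent.SJ
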