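import Pool.Agent.Lib_helper54.SJ.Lift
import Pool.Agent.Lib_helper54.SJ.Teich

/-! The multiplicities of the lift of a residually semisimple element. -/

set_option autoImplicit false

namespace Pool.Agent.SJ

open Module Polynomial IsLocalRing

section dims

variable {K V : Type*} [Field K] [AddCommGroup V] [Module K V] [FiniteDimensional K V]

theorem finrank_biSup {ι : Type*} (p : ι → Submodule K V) (h : iSupIndep p) (s : Finset ι) :
    finrank K (⨆ i ∈ s, p i : Submodule K V) = ∑ i ∈ s, finrank K (p i) := by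
  classical
  induction s using Finset.induction_on with
  | empty => simp
  | insert a s ha ih =>
    rw [Finset.iSup_insert, Finset.sum_insert ha, ← ih]
    have hd : Disjoint (p a) (⨆ i ∈ s, p i) := by
      refine (h a).mono_right ?_
      refine iSup₂_le fun i hi => ?_
      exact le_iSup₂_of_le i (fun h => ha (h ▸ hi)) le_rfl
    have := Submodule.finrank_sup_add_finrank_inf_eq (p a) (⨆ i ∈ s, p i)
    rw [hd.eq_bot, finrank_bot, add_zero] at this
    exact this

theorem sum_eigen_le (s : Module.End K V) (F : Finset K) :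
    ∑ z ∈ F, finrank K (s.eigenspace z) ≤ finrank K V := by
  rw [← finrank_biSup _ s.eigenspaces_iSupIndep]
  exact Submodule.finrank_le _

end dims

variable {K : Type*} [Field K] {O : ValuationSubring K}

open Classical in
/-- The Teichmüller representative (1 if there is none). -/
noncomputable def tc (O : ValuationSubring K) (m : ℕ) (α : K) : K :=
  if h : ∃ z : O, z ^ m = 1 ∧ ∃ a : O, (a : K) = α ∧ residue O a = residue O z then
    (h.choose : K) else 1

theorem tc_eq {m : ℕ} (hmk : (m : ResidueField O) ≠ 0) {a z : O} (hz : z ^ m = 1)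
    (h : residue O a = residue O z) : tc O m a = z := by
  have hex : ∃ z : O, z ^ m = 1 ∧ ∃ a' : O, (a' : K) = a ∧ residue O a' = residue O z :=
    ⟨z, hz, a, rfl, h⟩
  rw [tc, dif_pos hex]
  obtain ⟨h1, a', h2, h3⟩ := hex.choose_spec
  have h4 : a' = a := Subtype.ext h2
  rw [h4, h] at h3
  rw [← root_inj hmk hz h1 h3]

variable {V : Type*} [AddCommGroup V] [Module K V] [FiniteDimensional K V]

theorem exists_multiset [IsAlgClosed K] (P : K[X]) (Q : Polynomial O) (hQ : Q.Monic)
    (hP : Q.map (algebraMap O K) = P) :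
    ∃ M : Multiset O, P.roots = M.map (algebraMap O K) ∧ Q = (M.map fun a => X - C a).prod := by
  have h1 : ∀ α ∈ P.roots, ∃ a : O, (a : K) = α := by
    intro α hα
    apply mem_of_root O hQ
    rw [hP]
    exact (Polynomial.mem_roots'.mp hα).2
  have h2 : ∀ R : Multiset K, (∀ α ∈ R, ∃ a : O, (a : K) = α) →
      ∃ M : Multiset O, R = M.map (algebraMap O K) := by
    intro R
    induction R using Multiset.induction_on with
    | empty => intro _; exact ⟨0, rfl⟩
    | cons α R ih =>
      intro h
      obtain ⟨M, hM⟩ := ih fun β hβ => h β (Multiset.mem_cons_of_mem hβ)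
      obtain ⟨a, ha⟩ := h α (Multiset.mem_cons_self α R)
      exact ⟨a ::ₘ M, by rw [Multiset.map_cons, ← hM, ← ha]; rfl⟩
  obtain ⟨M, hM⟩ := h2 _ h1
  refine ⟨M, hM, ?_⟩
  have hPm : P.Monic := hP ▸ hQ.map _
  have h3 : P = (P.roots.map fun α => X - C α).prod := by
    have := (IsAlgClosed.splits P).eq_prod_roots
    rw [hPm.leadingCoeff, C_1, one_mul] at this
    exact this
  have hinj : Function.Injective (Polynomial.map (algebraMap O K)) :=
    Polynomial.map_injective _ (IsFractionRing.injective O K)
  apply hinj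
  rw [hP, h3, hM, Polynomial.map_multiset_prod, Multiset.map_map, Multiset.map_map]
  congr 1
  apply Multiset.map_congr rfl
  intro a _
  simp only [Function.comp_apply, Polynomial.map_sub, map_X, map_C]

/-- Every element of M lies in exactly one class. -/
theorem sum_countP {A B : Type*} [DecidableEq B] (M : Multiset A) (F : Finset A) (r : A → B)
    (hF : ∀ z ∈ F, ∀ w ∈ F, r z = r w → z = w) (hM : ∀ a ∈ M, ∃ z ∈ F, r a = r z) :
    ∑ z ∈ F, M.countP (fun a => r a = r z) = M.card := by
  classical
  induction M using Multiset.induction_on with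
  | empty => simp
  | cons a M ih =>
    obtain ⟨z₀, hz₀, h0⟩ := hM a (Multiset.mem_cons_self a M)
    have h1 : ∀ z ∈ F, (a ::ₘ M).countP (fun a => r a = r z) =
        M.countP (fun a => r a = r z) + if z = z₀ then 1 else 0 := by
      intro z hz
      by_cases h : z = z₀
      · rw [if_pos h, Multiset.countP_cons_of_pos _ (by rw [h, h0])]
      · rw [if_neg h, add_zero, Multiset.countP_cons_of_neg _ fun h2 =>
          h (hF z hz z₀ hz₀ (by rw [← h2, h0]))]
    rw [Finset.sum_congr rfl h1, Finset.sum_add_distrib,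
      ih fun b hb => hM b (Multiset.mem_cons_of_mem hb), Finset.sum_ite_eq' F z₀, if_pos hz₀,
      Multiset.card_cons]

theorem rootMult_pow {k : Type*} [Field k] (P : Polynomial k) (n : ℕ) (x : k) :
    (P ^ n).rootMultiplicity x = n * P.rootMultiplicity x := by
  classical
  rw [← Polynomial.count_roots, Polynomial.roots_pow, Multiset.count_nsmul,
    Polynomial.count_roots]

/-- The lift of a residually semisimple element. -/
theorem lift_res [IsAlgClosed K] [CharZero K] (γ : V ≃ₗ[K] V)
    (L : Submodule K (Module.End K V)) (hL : ∀ x ∈ L, γ.conj x ∈ L) (Q : Polynomial O)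
    (hQ : Q.map (algebraMap O K) = (γ : Module.End K V).charpoly) {m c e N : ℕ} (hm : 2 ≤ m)
    (hmk : (m : ResidueField O) ≠ 0)
    (hres : (X - 1) ^ e * Q.map (residue O) = (X ^ m - 1) ^ c * (X - 1) ^ N) :
    ∃ s : V ≃ₗ[K] V, (∀ x ∈ L, s.conj x ∈ L) ∧
      finrank K (LinearMap.range ((s : Module.End K V) - 1)) = (m - 1) * c ∧
      ∃ ζ : K, ζ ≠ 1 ∧ finrank K (Module.End.eigenspace (s : Module.End K V) ζ) = c := by
  classical
  have hinj : Function.Injective (algebraMap O K) := IsFractionRing.injective O K
  have hQm : Q.Monic := by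
    rw [hinj.monic_map_iff, hQ]
    exact LinearMap.charpoly_monic _
  obtain ⟨M, hM, hQM⟩ := exists_multiset _ Q hQm hQ
  have hQr : Q.map (residue O) = (M.map fun a => X - C (residue O a)).prod := by
    rw [hQM, Polynomial.map_multiset_prod, Multiset.map_map]
    congr 1
    apply Multiset.map_congr rfl
    intro a _
    simp only [Function.comp_apply, Polynomial.map_sub, map_X, map_C]
  have hroots : (Q.map (residue O)).roots = M.map (residue O) := by
    rw [hQr]
    have := Polynomial.roots_multiset_prod_X_sub_C (M.map (residue O))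
    rw [Multiset.map_map] at this
    exact this
  have hne0 : Q.map (residue O) ≠ 0 := (hQm.map _).ne_zero
  have hMm : ∀ a ∈ M, residue O a ^ m = 1 := by
    intro a ha
    have h1 : (Q.map (residue O)).eval (residue O a) = 0 := by
      have : residue O a ∈ (Q.map (residue O)).roots := by
        rw [hroots]; exact Multiset.mem_map_of_mem _ ha
      exact (Polynomial.mem_roots'.mp this).2
    have h2 := congrArg (Polynomial.eval (residue O a)) hres
    rw [eval_mul, h1, mul_zero, eval_mul, eval_pow, eval_pow, eval_sub, eval_sub, eval_pow, eval_X,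
      eval_one] at h2
    rcases mul_eq_zero.mp h2.symm with h3 | h3
    · exact sub_eq_zero.mp (eq_zero_of_pow_eq_zero h3)
    · rw [sub_eq_zero.mp (eq_zero_of_pow_eq_zero h3), one_pow]
  have hMz : ∀ a ∈ M, ∃ z : O, z ^ m = 1 ∧ residue O a = residue O z := by
    intro a ha
    obtain ⟨z, h1, h2⟩ := root_lift (O := O) (by omega) (hMm a ha)
    exact ⟨z, h1, h2.symm⟩
  have hMα : ∀ α, Module.End.maxGenEigenspace (γ : Module.End K V) α ≠ ⊥ →
      ∃ a ∈ M, (a : K) = α := by
    intro α hα
    have h1 : 0 < finrank K (Module.End.maxGenEigenspace (γ : Module.End K V) α) := by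
      rw [Nat.pos_iff_ne_zero]
      intro h
      exact hα (Submodule.finrank_eq_zero.mp h)
    rw [LinearMap.finrank_maxGenEigenspace_eq] at h1
    have h2 : α ∈ (γ : Module.End K V).charpoly.roots := by
      rw [← Polynomial.count_roots] at h1
      exact Multiset.count_pos.mp h1
    rw [hM] at h2
    obtain ⟨a, ha, h3⟩ := Multiset.mem_map.mp h2
    exact ⟨a, ha, h3⟩
  have hz0 : ∀ z : O, z ^ m = 1 → (z : K) ≠ 0 := by
    intro z hz h
    have h1 : z = 0 := Subtype.ext h
    rw [h1, zero_pow (by omega)] at hz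
    exact zero_ne_one hz
  obtain ⟨s, hs, hsL⟩ := lift γ L hL (tc O m) (by
    intro α hα
    obtain ⟨a, ha, rfl⟩ := hMα α hα
    obtain ⟨z, hz, h1⟩ := hMz a ha
    rw [tc_eq hmk hz h1]
    exact hz0 z hz) (by
    intro α₁ α₂ α₃ α₄ h1 h2 h3 h4 h
    obtain ⟨a₁, m₁, rfl⟩ := hMα _ h1
    obtain ⟨a₂, m₂, rfl⟩ := hMα _ h2
    obtain ⟨a₃, m₃, rfl⟩ := hMα _ h3
    obtain ⟨a₄, m₄, rfl⟩ := hMα _ h4
    obtain ⟨z₁, e₁, r₁⟩ := hMz _ m₁
    obtain ⟨z₂, e₂, r₂⟩ := hMz _ m₂
    obtain ⟨z₃, e₃, r₃⟩ := hMz _ m₃
    obtain ⟨z₄, e₄, r₄⟩ := hMz _ m₄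
    rw [tc_eq hmk e₁ r₁, tc_eq hmk e₂ r₂, tc_eq hmk e₃ r₃, tc_eq hmk e₄ r₄]
    have h5 : a₁ * a₂ = a₃ * a₄ := Subtype.ext h
    have h6 : z₁ * z₂ = z₃ * z₄ := by
      refine root_inj hmk (by rw [mul_pow, e₁, e₂, one_mul]) (by rw [mul_pow, e₃, e₄, one_mul]) ?_
      rw [map_mul, map_mul, ← r₁, ← r₂, ← r₃, ← r₄, ← map_mul, ← map_mul, h5]
    exact congrArg Subtype.val h6)
  -- the numbers
  let g : O → ℕ := fun z => M.countP (fun a => residue O a = residue O z)
  let f : O → ℕ := fun z => finrank K (Module.End.eigenspace (s : Module.End K V) (z : K))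
  have hgr : ∀ z : O, g z = (Q.map (residue O)).rootMultiplicity (residue O z) := by
    intro z
    show M.countP _ = _
    rw [← Polynomial.count_roots, hroots, Multiset.count_map, Multiset.countP_eq_card_filter]
    congr 1
    apply Multiset.filter_congr
    intro a _
    exact eq_comm
  have hgf : ∀ z : O, z ^ m = 1 → g z ≤ f z := by
    intro z hz
    let R := (γ : Module.End K V).charpoly.roots
    let F : Finset K := (R.filter fun α => tc O m α = z).toFinset
    have h1 : (⨆ α ∈ F, Module.End.maxGenEigenspace (γ : Module.End K V) α : Submodule K V) ≤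
        Module.End.eigenspace (s : Module.End K V) (z : K) := by
      refine iSup₂_le fun α hα => ?_
      intro v hv
      rw [Module.End.mem_eigenspace_iff]
      have h2 : tc O m α = z := (Multiset.mem_filter.mp (Multiset.mem_toFinset.mp hα)).2
      rw [← h2]
      exact hs α v hv
    have h2 := Submodule.finrank_mono h1
    rw [finrank_biSup _ (Module.End.independent_maxGenEigenspace _)] at h2
    refine le_trans (le_of_eq ?_) h2
    have h3 : ∀ α ∈ F, finrank K (Module.End.maxGenEigenspace (γ : Module.End K V) α) =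
        (R.filter fun α => tc O m α = z).count α := by
      intro α hα
      rw [LinearMap.finrank_maxGenEigenspace_eq, ← Polynomial.count_roots, Multiset.count_filter,
        if_pos (Multiset.mem_filter.mp (Multiset.mem_toFinset.mp hα)).2]
    rw [Finset.sum_congr rfl h3, Multiset.toFinset_sum_count_eq]
    show M.countP _ = _
    have h4 : R = M.map (algebraMap O K) := hM
    rw [h4, Multiset.filter_map, Multiset.card_map, Multiset.countP_eq_card_filter]
    congr 1
    apply Multiset.filter_congr
    intro a ha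
    obtain ⟨w, hw, h5⟩ := hMz a ha
    have h6 : tc O m (algebraMap O K a) = w := tc_eq hmk hw h5
    rw [Function.comp_apply, h6, h5]
    constructor
    · intro h
      rw [root_inj hmk hw hz h]
    · intro h
      rw [Subtype.ext h]
  have hcard : M.card = finrank K V := by
    have h1 : (γ : Module.End K V).charpoly.roots.card = (γ : Module.End K V).charpoly.natDegree :=
      (Polynomial.splits_iff_card_roots.mp (IsAlgClosed.splits _))
    rw [hM, Multiset.card_map, LinearMap.charpoly_natDegree] at h1
    exact h1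
  let Z : Finset O := nthRootsFinset m (1 : O)
  have hZ : ∀ z, z ∈ Z ↔ z ^ m = 1 := fun z => mem_nthRootsFinset (by omega) (1 : O)
  have hsum : ∑ z ∈ Z, g z = finrank K V := by
    rw [← hcard]
    refine sum_countP M Z (residue O) (fun z hz w hw h => ?_) fun a ha => ?_
    · exact root_inj hmk ((hZ z).mp hz) ((hZ w).mp hw) h
    · obtain ⟨z, hz, h1⟩ := hMz a ha
      exact ⟨z, (hZ z).mpr hz, h1⟩
  have hsumf : ∑ z ∈ Z, f z ≤ finrank K V := by
    have h1 := sum_eigen_le (s : Module.End K V) (Z.image (fun z : O => (z : K)))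
    rw [Finset.sum_image fun z _ w _ h => Subtype.ext h] at h1
    exact h1
  have heq : ∀ z ∈ Z, g z = f z := by
    have h1 : ∑ z ∈ Z, g z = ∑ z ∈ Z, f z := by
      apply le_antisymm
      · exact Finset.sum_le_sum fun z hz => hgf z ((hZ z).mp hz)
      · rw [hsum]; exact hsumf
    exact (Finset.sum_eq_sum_iff_of_le fun z hz => hgf z ((hZ z).mp hz)).mp h1
  have hX1 : ∀ x : ResidueField O, (X - 1 : Polynomial (ResidueField O)).rootMultiplicity x =
      if x = 1 then 1 else 0 := by
    intro x
    have : (X - 1 : Polynomial (ResidueField O)) = X - C 1 := by rw [C_1]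
    rw [this, Polynomial.rootMultiplicity_X_sub_C]
  have hXm : ∀ x : ResidueField O, x ^ m = 1 →
      (X ^ m - 1 : Polynomial (ResidueField O)).rootMultiplicity x = 1 := by
    intro x hx
    have hsep : (X ^ m - 1 : Polynomial (ResidueField O)).Separable :=
      X_pow_sub_one_separable_iff.mpr hmk
    apply le_antisymm
    · exact rootMultiplicity_le_one_of_separable hsep x
    · rw [Nat.one_le_iff_ne_zero, ← Nat.pos_iff_ne_zero, Polynomial.rootMultiplicity_pos
        (hsep.ne_zero)]
      rw [IsRoot.def, eval_sub, eval_pow, eval_X, eval_one, hx, sub_self]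
  have hX1n : (X - 1 : Polynomial (ResidueField O)) ≠ 0 := by
    have : (X - 1 : Polynomial (ResidueField O)) = X - C 1 := by rw [C_1]
    rw [this]; exact X_sub_C_ne_zero 1
  have hXmn : (X ^ m - 1 : Polynomial (ResidueField O)) ≠ 0 :=
    (X_pow_sub_one_separable_iff.mpr hmk).ne_zero
  have hmult : ∀ x : ResidueField O, x ^ m = 1 →
      e * (if x = 1 then 1 else 0) + (Q.map (residue O)).rootMultiplicity x =
        c + N * (if x = 1 then 1 else 0) := by
    intro x hx
    have h1 := congrArg (Polynomial.rootMultiplicity x) hres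
    rw [rootMultiplicity_mul (mul_ne_zero (pow_ne_zero _ hX1n) hne0),
      rootMultiplicity_mul (mul_ne_zero (pow_ne_zero _ hXmn) (pow_ne_zero _ hX1n))] at h1
    rw [rootMult_pow, rootMult_pow, rootMult_pow, hX1, hXm x hx, mul_one] at h1
    exact h1
  have hdeg : e + finrank K V = m * c + N := by
    have h1 := congrArg Polynomial.natDegree hres
    rw [natDegree_mul (pow_ne_zero _ hX1n) hne0, natDegree_mul (pow_ne_zero _ hXmn)
      (pow_ne_zero _ hX1n), natDegree_pow, natDegree_pow, natDegree_pow, hQm.natDegree_map] at h1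
    have h2 : (X - 1 : Polynomial (ResidueField O)).natDegree = 1 := by
      have : (X - 1 : Polynomial (ResidueField O)) = X - C 1 := by rw [C_1]
      rw [this]; exact natDegree_X_sub_C 1
    have h3 : (X ^ m - 1 : Polynomial (ResidueField O)).natDegree = m := by
      have : (X ^ m - 1 : Polynomial (ResidueField O)) = X ^ m - C 1 := by rw [C_1]
      rw [this]; exact natDegree_X_pow_sub_C
    have h4 : Q.natDegree = finrank K V := by
      have h5 := LinearMap.charpoly_natDegree (γ : Module.End K V)
      rw [← hQ, hQm.natDegree_map] at h5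
      exact h5
    rw [h2, h3, h4] at h1
    rw [mul_one, mul_one, mul_comm c m] at h1
    exact h1
  refine ⟨s, hsL, ?_, ?_⟩
  · have h1 : g 1 = f 1 := heq 1 ((hZ 1).mpr (one_pow _))
    rw [hgr, map_one] at h1
    have h2 := hmult 1 (one_pow _)
    rw [if_pos rfl, mul_one, mul_one, h1] at h2
    have h3 : f 1 = finrank K (LinearMap.ker ((s : Module.End K V) - 1)) := by
      show finrank K (Module.End.eigenspace (s : Module.End K V) ((1 : O) : K)) = _
      rw [Module.End.eigenspace_def]
      have : ((1 : O) : K) = 1 := rfl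
      rw [this, one_smul]
    have h4 := LinearMap.finrank_range_add_finrank_ker ((s : Module.End K V) - 1)
    rw [← h3] at h4
    obtain ⟨m', rfl⟩ : ∃ m', m = m' + 1 := ⟨m - 1, by omega⟩
    rw [Nat.add_sub_cancel]
    have h5 : (m' + 1) * c = m' * c + c := by ring
    omega
  · obtain ⟨ζ, hζ⟩ := exists_primitive O (m := m) (by omega)
    have hζ1 : ζ ≠ 1 := hζ.ne_one (by omega)
    have hζm : ζ ^ m = 1 := hζ.pow_eq_one
    refine ⟨ζ, fun h => hζ1 (Subtype.ext h), ?_⟩
    have h1 : g ζ = f ζ := heq ζ ((hZ ζ).mpr hζm)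
    have h2 := hmult (residue O ζ) (by rw [← map_pow, hζm, map_one])
    have h3 : residue O ζ ≠ 1 := by
      intro h
      exact hζ1 (root_inj hmk hζm (one_pow _) (by rw [h, map_one]))
    rw [if_neg h3, mul_zero, mul_zero, zero_add, add_zero, ← hgr, h1] at h2
    exact h2

end Pool.Agent.SJ
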