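import Pool.Agent.Lib_helper48.SJ.PERM

/-! The characteristic polynomial of a permutation matrix depends only on the cycle type. -/

set_option autoImplicit false

namespace Pool.Agent.SJ

open Polynomial Matrix

theorem perm_ext_ct {m n : ℕ} (hmn : m ≤ n) (τ : Equiv.Perm (Fin m)) :
    ∃ σ : Equiv.Perm (Fin n), σ.cycleType = τ.cycleType ∧
      ∀ (R : Type*) [CommRing R], (σ.permMatrix R).charpoly
        = (τ.permMatrix R).charpoly * (X - 1) ^ (n - m) := by
  let e : Fin m ⊕ Fin (n - m) ≃ Fin n := finSumFinEquiv.trans (finCongr (by omega))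
  let ρ : Equiv.Perm (Fin m ⊕ Fin (n - m)) := Equiv.sumCongr τ 1
  refine ⟨e.permCongr ρ, ?_, ?_⟩
  · let f : Fin m ≃ {i : Fin n // (e.symm i).isLeft = true} :=
      { toFun := fun a => ⟨e (Sum.inl a), by rw [Equiv.symm_apply_apply]; rfl⟩
        invFun := fun i => (e.symm i.1).getLeft i.2
        left_inv := fun a => by simp
        right_inv := fun i => by
          apply Subtype.ext
          show e (Sum.inl ((e.symm i.1).getLeft i.2)) = i.1
          rw [Sum.inl_getLeft, Equiv.apply_symm_apply] }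
    have h : e.permCongr ρ = τ.extendDomain f := by
      ext i
      congr 1
      obtain ⟨i, rfl⟩ := e.surjective i
      rw [Equiv.permCongr_apply, Equiv.symm_apply_apply]
      rcases i with i | i
      · have h1 : e (Sum.inl i) = ((f i : {i : Fin n // (e.symm i).isLeft = true}) : Fin n) := rfl
        rw [h1, Equiv.Perm.extendDomain_apply_image]
        rfl
      · rw [Equiv.Perm.extendDomain_apply_not_subtype]
        · rfl
        · rw [Equiv.symm_apply_apply]
          simp
    rw [h, Equiv.Perm.cycleType_extendDomain]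
  · intro R _
    have h : (e.permCongr ρ).permMatrix R
        = Matrix.reindex e e (Matrix.fromBlocks (τ.permMatrix R) 0 0 1) := by
      ext i j
      obtain ⟨i, rfl⟩ := e.surjective i
      obtain ⟨j, rfl⟩ := e.surjective j
      rw [perm_apply, Equiv.permCongr_apply, Equiv.symm_apply_apply, Matrix.reindex_apply,
        Matrix.submatrix_apply, Equiv.symm_apply_apply, Equiv.symm_apply_apply]
      rcases i with i | i <;> rcases j with j | j
      · rw [Matrix.fromBlocks_apply₁₁, perm_apply]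
        congr 1
        rw [e.apply_eq_iff_eq]
        show (Sum.inl (τ i) = Sum.inl j) = _
        rw [Sum.inl.injEq]
      · rw [Matrix.fromBlocks_apply₁₂, Matrix.zero_apply, if_neg]
        rw [e.apply_eq_iff_eq]
        show ¬ (Sum.inl (τ i) = Sum.inr j)
        exact Sum.inl_ne_inr
      · rw [Matrix.fromBlocks_apply₂₁, Matrix.zero_apply, if_neg]
        rw [e.apply_eq_iff_eq]
        show ¬ (Sum.inr i = Sum.inl j)
        exact Sum.inr_ne_inl
      · rw [Matrix.fromBlocks_apply₂₂, Matrix.one_apply]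
        congr 1
        rw [e.apply_eq_iff_eq]
        show (Sum.inr i = Sum.inr j) = _
        rw [Sum.inr.injEq]
    rw [h, Matrix.charpoly_reindex, Matrix.charpoly_fromBlocks_zero₁₂, Matrix.charpoly_one,
      Fintype.card_fin]

theorem charpoly_ct {m n : ℕ} (hmn : m ≤ n) (τ : Equiv.Perm (Fin m)) (σ : Equiv.Perm (Fin n))
    (h : σ.cycleType = τ.cycleType) (R : Type*) [CommRing R] :
    (σ.permMatrix R).charpoly = (τ.permMatrix R).charpoly * (X - 1) ^ (n - m) := by
  obtain ⟨σ', hc, hσ'⟩ := perm_ext_ct hmn τ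
  rw [← hσ']
  obtain ⟨c, hc'⟩ := isConj_iff.mp (Equiv.Perm.isConj_iff_cycleType_eq.mpr (hc.trans h.symm))
  rw [← hc', Matrix.permMatrix_mul, Matrix.permMatrix_mul]
  have h1 : (c⁻¹.permMatrix R) * (c.permMatrix R) = 1 := by
    rw [← Matrix.permMatrix_mul, mul_inv_cancel, Matrix.permMatrix_one]
  have h2 : (c.permMatrix R) * (c⁻¹.permMatrix R) = 1 := by
    rw [← Matrix.permMatrix_mul, inv_mul_cancel, Matrix.permMatrix_one]
  let M : (Matrix (Fin n) (Fin n) R)ˣ := ⟨c⁻¹.permMatrix R, c.permMatrix R, h1, h2⟩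
  have h3 := Matrix.charpoly_units_conj M (σ'.permMatrix R)
  rw [← Matrix.coe_units_inv] at h3
  rw [← mul_assoc]
  exact h3

theorem cycleType_swap {α : Type*} [Fintype α] [DecidableEq α] {x y : α} (h : x ≠ y) :
    (Equiv.swap x y).cycleType = {2} := by
  rw [(Equiv.Perm.isCycle_swap h).cycleType, Equiv.Perm.card_support_swap h]

theorem charpoly_two {n : ℕ} (hn : 5 ≤ n) (σ : Equiv.Perm (Fin n)) (h : σ.cycleType = {2})
    (R : Type*) [CommRing R] :
    (σ.permMatrix R).charpoly = (X ^ 2 - 1) ^ 1 * (X - 1) ^ (n - 2 * 1) := by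
  rw [charpoly_ct (by omega) (Equiv.swap (0 : Fin 2) 1) σ
    (by rw [h, cycleType_swap (by decide)]) R, perm_det2, pow_one]

theorem charpoly_three {n : ℕ} (hn : 5 ≤ n) (σ : Equiv.Perm (Fin n)) (h : σ.cycleType = {3})
    (R : Type*) [CommRing R] :
    (σ.permMatrix R).charpoly = (X ^ 3 - 1) ^ 1 * (X - 1) ^ (n - 3 * 1) := by
  rw [charpoly_ct (by omega) (finRotate 3) σ (by rw [h]; exact (cycleType_finRotate (n := 1)).symm) R,
    perm_det3, pow_one]

theorem charpoly_five {n : ℕ} (hn : 5 ≤ n) (σ : Equiv.Perm (Fin n)) (h : σ.cycleType = {5})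
    (R : Type*) [CommRing R] :
    (σ.permMatrix R).charpoly = (X ^ 5 - 1) ^ 1 * (X - 1) ^ (n - 5 * 1) := by
  rw [charpoly_ct (by omega) (finRotate 5) σ (by rw [h]; exact (cycleType_finRotate (n := 3)).symm) R,
    perm_det5, pow_one]

theorem charpoly_twotwo {n : ℕ} (hn : 5 ≤ n) (σ : Equiv.Perm (Fin n)) (h : σ.cycleType = {2, 2})
    (R : Type*) [CommRing R] :
    (σ.permMatrix R).charpoly = (X ^ 2 - 1) ^ 2 * (X - 1) ^ (n - 2 * 2) := by
  rw [charpoly_ct (by omega) (Equiv.swap (0 : Fin 4) 1 * Equiv.swap (2 : Fin 4) 3) σ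
    (by
      rw [h, Equiv.Perm.Disjoint.cycleType_mul (by
        intro x; fin_cases x <;> decide),
        cycleType_swap (by decide), cycleType_swap (by decide)]
      rfl) R, perm_det4]

end Pool.Agent.SJ
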