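import Pool.Agent.Lib_helper24.MF.F6
import Pool.Agent.Lib_helper9.U4.Mix3

/-! The theorem on invariant forms without symplectic factors. -/

set_option autoImplicit false
set_option linter.unusedSectionVars false

namespace Pool.Agent.SJ

open Module Equiv

variable {K : Type*} [Field K] [CharZero K] [IsAlgClosed K] {g : Type*} [LieRing g] [LieAlgebra K g]
  {κ : Type*} [Fintype κ] (U : κ → Type*) [∀ j, AddCommGroup (U j)] [∀ j, Module K (U j)]
  [∀ j, FiniteDimensional K (U j)] [∀ j, LieRingModule g (U j)] [∀ j, LieModule K g (U j)]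

/-- The action on the n-th power of the sum of the U j and their duals. -/
def act0 {n : ℕ} (y : g) (v : Fin n → ∀ j, U j × Module.Dual K (U j)) :
    Fin n → ∀ j, U j × Module.Dual K (U j) :=
  fun t j => (⁅y, (v t j).1⁆, -((v t j).2 ∘ₗ LieModule.toEnd K g (U j) y))

theorem gen0' (W : Empty → Type) [∀ i, AddCommGroup (W i)] [∀ i, Module K (W i)]
    [∀ i, FiniteDimensional K (W i)] [∀ i, LieRingModule g (W i)] [∀ i, LieModule K g (W i)]
    (hfull : ∀ z : ∀ j, Module.End K (U j), ∃ y : g, ∀ j (u : U j), ⁅y, u⁆ = z j u)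
    (n m : ℕ) (f : (Fin n → ∀ j, U j × Module.Dual K (U j)) [⋀^Fin m]→ₗ[K] K)
    (hf : ∀ (y : g) (v : Fin m → Fin n → ∀ j, U j × Module.Dual K (U j)),
      ∑ a, f (Function.update v a (act0 U y (v a))) = 0) :
    (fun v => f v) ∈ Submodule.span K
      {G : (Fin m → Fin n → ∀ j, U j × Module.Dual K (U j)) → K |
      ∃ (q : ℕ) (e : Fin q ⊕ Fin q ≃ Fin m)
        (B : Fin q → LinearMap.BilinForm K (Fin n → ∀ j, U j × Module.Dual K (U j))),
        (∀ r, (B r).IsAlt ∧ ∀ (y : g) (v w : Fin n → ∀ j, U j × Module.Dual K (U j)),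
          B r (act0 U y v) w + B r v (act0 U y w) = 0) ∧
        G = fun v => ∑ σ : Perm (Fin m), ((Perm.sign σ : ℤ) : K) *
          ∏ r, B r (v (σ (e (Sum.inl r)))) (v (σ (e (Sum.inr r))))} := by
  let ω : ∀ i : Empty, LinearMap.BilinForm K (W i) := fun i => i.elim
  let M₁ := Fin n → Pool.Agent.MFT.MSp K W U
  let M₀ := Fin n → ∀ j, U j × Module.Dual K (U j)
  let E : M₀ →ₗ[K] M₁ :=
    { toFun := fun v t => (fun i => i.elim, v t)
      map_add' := fun v w => by
        funext t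
        exact Prod.ext (funext fun i => i.elim) rfl
      map_smul' := fun c v => by
        funext t
        exact Prod.ext (funext fun i => i.elim) rfl }
  let F : M₁ →ₗ[K] M₀ :=
    { toFun := fun v t => (v t).2
      map_add' := fun v w => rfl
      map_smul' := fun c v => rfl }
  have hFE : ∀ v, F (E v) = v := fun v => rfl
  have hEF : ∀ v, E (F v) = v := by
    intro v
    funext t
    exact Prod.ext (funext fun i => i.elim) rfl
  have hFa : ∀ (y : g) (v : M₁), F (fun t => Pool.Agent.MFT.actM K y (v t)) = act0 U y (F v) :=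
    fun y v => rfl
  let f' : M₁ [⋀^Fin m]→ₗ[K] K := f.compLinearMap F
  have h := Pool.Agent.MFT.part3X (K := K) (W := W) (U := U) (g := g) (ω := ω) (fun i => i.elim)
    (fun i => i.elim) (fun i => i.elim) (fun x z _ => by
      obtain ⟨y, hy⟩ := hfull z
      exact ⟨y, fun i => i.elim, hy⟩) n m f' (by
      intro y v
      have h1 := hf y (fun a => F (v a))
      refine Eq.trans ?_ h1
      refine Finset.sum_congr rfl fun a _ => ?_
      show f (fun b => F (Function.update v a (fun t => Pool.Agent.MFT.actM K y (v a t)) b)) = _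
      congr 1
      funext b
      by_cases hb : b = a
      · subst hb
        rw [Function.update_self, Function.update_self, hFa]
      · rw [Function.update_of_ne hb, Function.update_of_ne hb])
  let Φ : ((Fin m → M₁) → K) →ₗ[K] ((Fin m → M₀) → K) :=
    { toFun := fun G v => G fun a => E (v a)
      map_add' := fun _ _ => rfl
      map_smul' := fun _ _ => rfl }
  have h2 := Submodule.mem_map_of_mem (f := Φ) h
  have h3 : Φ (fun v => f' v) = fun v => f v := by
    funext v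
    show f (fun a => F (E (v a))) = f v
    rfl
  rw [h3, Submodule.map_span] at h2
  refine Submodule.span_mono ?_ h2
  rintro _ ⟨G, ⟨q, e, B, hB, rfl⟩, rfl⟩
  refine ⟨q, e, fun r => (B r).compl₁₂ E E, fun r => ⟨fun v => (hB r).1 (E v), fun y v w => ?_⟩, rfl⟩
  have hEa : ∀ v : M₀, E (act0 U y v) = fun t => Pool.Agent.MFT.actM K y ((E v) t) := by
    intro v
    rw [← hEF (fun t => Pool.Agent.MFT.actM K y ((E v) t)), hFa, hFE]
  have h4 := (hB r).2 y (E v) (E w)
  rw [← hEa, ← hEa] at h4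
  exact h4

theorem gen0 (hfull : ∀ z : ∀ j, Module.End K (U j), ∃ y : g, ∀ j (u : U j), ⁅y, u⁆ = z j u)
    (n m : ℕ) (f : (Fin n → ∀ j, U j × Module.Dual K (U j)) [⋀^Fin m]→ₗ[K] K)
    (hf : ∀ (y : g) (v : Fin m → Fin n → ∀ j, U j × Module.Dual K (U j)),
      ∑ a, f (Function.update v a (act0 U y (v a))) = 0) :
    (fun v => f v) ∈ Submodule.span K
      {G : (Fin m → Fin n → ∀ j, U j × Module.Dual K (U j)) → K |
      ∃ (q : ℕ) (e : Fin q ⊕ Fin q ≃ Fin m)
        (B : Fin q → LinearMap.BilinForm K (Fin n → ∀ j, U j × Module.Dual K (U j))),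
        (∀ r, (B r).IsAlt ∧ ∀ (y : g) (v w : Fin n → ∀ j, U j × Module.Dual K (U j)),
          B r (act0 U y v) w + B r v (act0 U y w) = 0) ∧
        G = fun v => ∑ σ : Perm (Fin m), ((Perm.sign σ : ℤ) : K) *
          ∏ r, B r (v (σ (e (Sum.inl r)))) (v (σ (e (Sum.inr r))))} := by
  refine @gen0' K _ _ _ g _ _ κ _ U _ _ _ _ _ (fun _ => PUnit) (fun i => i.elim)
    (fun i => i.elim) (fun i => i.elim) (fun i => i.elim) (fun i => i.elim) hfull n m f hf

theorem full0' (W : Empty → Type) [∀ i, AddCommGroup (W i)] [∀ i, Module K (W i)]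
    [∀ i, FiniteDimensional K (W i)] [∀ i, LieRingModule g (W i)] [∀ i, LieModule K g (W i)]
    [∀ j, LieModule.IsIrreducible K g (U j)]
    (onU : ∀ j, ∀ z : Module.End K (U j), LinearMap.trace K (U j) z = 0 →
      ∃ (y : g) (c : K), ∀ v : U j, ⁅y, v⁆ = z v + c • v)
    (hs : ∀ j, ∃ h : g, (∀ j (v : U j), ⁅h, ⁅h, v⁆⁆ = (1/4 : K) • v) ∧
      ¬ ∃ c : K, ∀ v : U j, ⁅h, v⁆ = c • v)
    (hC : Submodule.span K {c : κ → K | ∃ h : g, (∀ j (v : U j), ⁅h, ⁅h, v⁆⁆ = (1/4 : K) • v) ∧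
      c = fun j => LinearMap.trace K (U j) (LieModule.toEnd K g (U j) h)} = ⊤)
    (htw : ∀ j j', j ≠ j' → ¬ Pool.Agent.U4.TwistIso K g (U j) (U j') ∧
      ¬ Pool.Agent.U4.TwistIso K g (U j) (Module.Dual K (U j')))
    (z : ∀ j, Module.End K (U j)) : ∃ y : g, ∀ j (u : U j), ⁅y, u⁆ = z j u := by
  let ω : ∀ i : Empty, LinearMap.BilinForm K (W i) := fun i => i.elim
  have hirr : ∀ i : Empty, LieModule.IsIrreducible K g (W i) := fun i => i.elim
  obtain ⟨y, -, hy⟩ := Pool.Agent.U4.mixedFull (K := K) (g := g) (W := W) (U := U) (ω := ω)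
    (fun i => i.elim) (fun i => i.elim) (fun i => i.elim)
    (fun _ _ => ⟨0, fun i => i.elim⟩) (fun j _ => onU j)
    (fun j _ => by
      obtain ⟨h, h1, h2⟩ := hs j
      exact ⟨h, ⟨fun i => i.elim, h1⟩, h2⟩)
    (by
      unfold Pool.Agent.U4.Centre
      rw [eq_top_iff, ← hC]
      refine Submodule.span_mono ?_
      rintro t ⟨h, hh, ht⟩
      exact ⟨h, ⟨fun i => i.elim, hh⟩, ht⟩)
    (fun j j' hj _ => htw j j' hj) (fun i => i.elim) z (fun i => i.elim)
  exact ⟨y, hy⟩

theorem full0 [∀ j, LieModule.IsIrreducible K g (U j)]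
    (onU : ∀ j, ∀ z : Module.End K (U j), LinearMap.trace K (U j) z = 0 →
      ∃ (y : g) (c : K), ∀ v : U j, ⁅y, v⁆ = z v + c • v)
    (hs : ∀ j, ∃ h : g, (∀ j (v : U j), ⁅h, ⁅h, v⁆⁆ = (1/4 : K) • v) ∧
      ¬ ∃ c : K, ∀ v : U j, ⁅h, v⁆ = c • v)
    (hC : Submodule.span K {c : κ → K | ∃ h : g, (∀ j (v : U j), ⁅h, ⁅h, v⁆⁆ = (1/4 : K) • v) ∧
      c = fun j => LinearMap.trace K (U j) (LieModule.toEnd K g (U j) h)} = ⊤)
    (htw : ∀ j j', j ≠ j' → ¬ Pool.Agent.U4.TwistIso K g (U j) (U j') ∧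
      ¬ Pool.Agent.U4.TwistIso K g (U j) (Module.Dual K (U j')))
    (z : ∀ j, Module.End K (U j)) : ∃ y : g, ∀ j (u : U j), ⁅y, u⁆ = z j u := by
  refine @full0' K _ _ _ g _ _ κ _ U _ _ _ _ _ (fun _ => PUnit) (fun i => i.elim)
    (fun i => i.elim) (fun i => i.elim) (fun i => i.elim) (fun i => i.elim) _ onU hs hC htw z

end Pool.Agent.SJ
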